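import Pool.Agent.Lib.MP_d3ed34_co.Lambda

set_option autoImplicit false
set_option linter.unusedSectionVars false

namespace Pool.Agent.Lib.MP_d3ed34_co.Dens

open Finset

section loc

variable {R : Type*} [CommRing R] [IsDedekindDomain R]

theorem loc_total (P : Ideal R) [hP : P.IsPrime] (hP0 : P ≠ ⊥) (a b : R) :
    ∃ s, s ∉ P ∧ (a ∣ s * b ∨ b ∣ s * a) := by
  have := IsLocalization.AtPrime.isDiscreteValuationRing_of_dedekind_domain R hP0
    (Localization.AtPrime P)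
  have key : ∀ a b : R, algebraMap R (Localization.AtPrime P) a ∣ algebraMap R _ b →
      ∃ s, s ∉ P ∧ a ∣ s * b := by
    rintro a b ⟨c, hc⟩
    obtain ⟨⟨r, s⟩, hrs⟩ := IsLocalization.surj P.primeCompl c
    refine ⟨s, s.2, r, ?_⟩
    apply IsLocalization.injective (Localization.AtPrime P) P.primeCompl_le_nonZeroDivisors
    simp only [map_mul]
    rw [hc, ← hrs]
    ring
  rcases ValuationRing.dvd_total (algebraMap R (Localization.AtPrime P) a)
    (algebraMap R _ b) with h | h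
  · obtain ⟨s, h1, h2⟩ := key _ _ h
    exact ⟨s, h1, Or.inl h2⟩
  · obtain ⟨s, h1, h2⟩ := key _ _ h
    exact ⟨s, h1, Or.inr h2⟩

omit [IsDedekindDomain R] in
theorem mem_of_loc (I : Ideal R) (z : R)
    (h : ∀ P : Ideal R, P.IsMaximal → ∃ s, s ∉ P ∧ s * z ∈ I) : z ∈ I := by
  by_contra hz
  let J : Ideal R := Submodule.comap (LinearMap.mulRight R z) I
  have hJ : J ≠ ⊤ := by
    intro hJ
    have : (1 : R) ∈ J := hJ ▸ Submodule.mem_top
    exact hz (by simpa [J] using this)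
  obtain ⟨P, hP, hle⟩ := Ideal.exists_le_maximal J hJ
  obtain ⟨s, h1, h2⟩ := h P hP
  exact h1 (hle (by simpa [J] using h2))

theorem inv_ideal (σ : R →+* R) (a : R)
    (h : ∀ P : Ideal R, P.IsPrime → a ∈ P → ∀ y ∈ P, σ y ∈ P) (I : Ideal R) (hI : a ∈ I) :
    ∀ y ∈ I, σ y ∈ I := by
  have key : ∀ I : Ideal R, a ∈ I → I.map σ ≤ I := by
    intro I
    refine UniqueFactorizationMonoid.induction_on_prime
      (P := fun I : Ideal R => a ∈ I → I.map σ ≤ I) I ?_ ?_ ?_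
    · intro _
      simp
    · intro J hJ _
      rw [Ideal.isUnit_iff] at hJ
      rw [hJ]
      exact le_top
    · intro J P _ hP ih hd
      have hPp : P.IsPrime := Ideal.isPrime_of_prime hP
      have hd' : a ∈ P ⊓ J := Ideal.mul_le_inf hd
      have h3 : P.map σ ≤ P := by
        rw [Ideal.map_le_iff_le_comap]
        exact fun x hx => h P hPp hd'.1 x hx
      rw [Ideal.map_mul]
      exact Ideal.mul_mono h3 (ih hd'.2)
  exact fun y hy => key I hI (Ideal.mem_map_of_mem σ hy)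

omit [IsDedekindDomain R] in
theorem iter_congr (σ : R →+* R) {π : R} (hπ : ∀ y, π ∣ σ y - y) (j : ℕ) (y : R) :
    π ∣ (σ ^ j) y - y := by
  induction j with
  | zero => simp
  | succ j ih =>
    have := dvd_add (hπ ((σ ^ j) y)) ih
    rw [pow_succ', RingHom.mul_def, RingHom.comp_apply]
    rwa [show σ ((σ ^ j) y) - y = σ ((σ ^ j) y) - (σ ^ j) y + ((σ ^ j) y - y) by ring]

omit [IsDedekindDomain R] in
theorem norm_trick (σ : R →+* R) {p : ℕ} (hp : 0 < p) (hσ : ∀ y, (σ ^ p) y = y) {π : R}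
    (hπ : ∀ y, π ∣ σ y - y) (P : Ideal R) (hP : P.IsPrime) (hπP : π ∈ P) (s : R) (hs : s ∉ P) :
    ∃ s', s' ∉ P ∧ σ s' = s' ∧ s ∣ s' := by
  obtain ⟨n, rfl⟩ : ∃ n, p = n + 1 := ⟨p - 1, by omega⟩
  refine ⟨∏ j ∈ range (n + 1), (σ ^ j) s, ?_, ?_, ?_⟩
  · intro h
    obtain ⟨j, -, hj⟩ := Ideal.IsPrime.prod_mem_iff.mp h
    have h1 : (σ ^ j) s - s ∈ P := P.mem_of_dvd (iter_congr σ hπ j s) hπP
    exact hs (by simpa using P.sub_mem hj h1)
  · rw [map_prod]
    have h1 : ∀ j, σ ((σ ^ j) s) = (σ ^ (j + 1)) s := fun j => by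
      rw [pow_succ', RingHom.mul_def, RingHom.comp_apply]
    simp only [h1]
    rw [Finset.prod_range_succ, Finset.prod_range_succ', hσ]
    simp
  · rw [Finset.prod_range_succ']
    simp

theorem step (σ : R →+* R) {p : ℕ} (hp : 0 < p) (hp0 : (p : R) ≠ 0) (hσ : ∀ y, (σ ^ p) y = y)
    {π : R} (hπ0 : π ≠ 0) (hπ1 : σ π = π) (hπ : ∀ y, π ∣ σ y - y) (I : Ideal R) (S : R → R)
    (hS1 : ∀ s y, σ s = s → S (s * y) = s * S y) (hS2 : ∀ y, (p : R) ∣ S y)
    (hS3 : ∀ y ∈ I, S y ∈ I)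
    (hK : ∀ P : Ideal R, P.IsMaximal → (p : R) ∈ P → π ∈ P ∧ ∃ s K, s ∉ P ∧ s * π ^ K ∈ I)
    {y X : R} (hy : y ∈ I) (hX : S y = p * X) : π * X ∈ I := by
  refine mem_of_loc I _ fun P hP => ?_
  by_cases hpP : (p : R) ∈ P
  swap
  · refine ⟨p, hpP, ?_⟩
    rw [mul_left_comm, ← hX]
    exact I.mul_mem_left _ (hS3 y hy)
  obtain ⟨hπP, s₀, K, hs₀, hK⟩ := hK P hP hpP
  have hPp := hP.isPrime
  have hP0 : P ≠ ⊥ := by
    rintro rfl
    exact hπ0 hπP
  have D : ∀ k s, s ∉ P → π ^ k ∣ s * y → ∃ s', s' ∉ P ∧ π ^ k ∣ s' * X := by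
    intro k s hs hd
    obtain ⟨s', h1, h2, h3⟩ := norm_trick σ hp hσ hπ P hPp hπP s hs
    obtain ⟨w, hw⟩ := hd.trans (mul_dvd_mul_right h3 y)
    obtain ⟨v, hv⟩ := hS2 w
    refine ⟨s', h1, v, mul_left_cancel₀ hp0 ?_⟩
    have a1 := hS1 s' y h2
    have a2 := hS1 (π ^ k) w (by rw [map_pow, hπ1])
    rw [← hw, a1, hX, hv] at a2
    linear_combination a2
  have C : ∀ k, (∃ s, s ∉ P ∧ s * (π * X) ∈ I) ∨ ∃ s, s ∉ P ∧ π ^ k ∣ s * y := by
    intro k
    induction k with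
    | zero => exact Or.inr ⟨1, (Ideal.ne_top_iff_one P).mp hP.ne_top, by simp⟩
    | succ k ih =>
      rcases ih with ih | ⟨s, hs, hd⟩
      · exact Or.inl ih
      obtain ⟨s', h1, w, hw⟩ := D k s hs hd
      obtain ⟨r, hr, h | h⟩ := loc_total P hP0 y (π ^ (k + 1))
      · left
        refine ⟨r * s', fun hc => (hPp.mem_or_mem hc).elim hr h1, ?_⟩
        rw [show r * s' * (π * X) = r * π ^ (k + 1) * w by linear_combination r * π * hw]
        exact I.mul_mem_right _ (I.mem_of_dvd h hy)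
      · exact Or.inr ⟨r, hr, h⟩
  rcases C K with h | ⟨s, hs, hd⟩
  · exact h
  obtain ⟨s', h1, w, hw⟩ := D K s hs hd
  refine ⟨s₀ * s', fun hc => (hPp.mem_or_mem hc).elim hs₀ h1, ?_⟩
  rw [show s₀ * s' * (π * X) = s₀ * π ^ K * (π * w) by linear_combination s₀ * π * hw]
  exact I.mul_mem_right _ hK

omit [IsDedekindDomain R] in
theorem exists_prime_mem (P : Ideal R) (hP : P.IsPrime) (m : ℕ) (hm0 : m ≠ 0)
    (hm : (m : R) ∈ P) : ∃ q : ℕ, q.Prime ∧ q ∣ m ∧ (q : R) ∈ P := by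
  induction m using induction_on_primes with
  | zero => exact absurd rfl hm0
  | one => exact absurd (by simpa using hm) ((Ideal.ne_top_iff_one P).mp hP.ne_top)
  | prime_mul q a hq ih =>
    rw [Nat.cast_mul] at hm
    rcases hP.mem_or_mem hm with h | h
    · exact ⟨q, hq, dvd_mul_right _ _, h⟩
    · obtain ⟨r, h1, h2, h3⟩ := ih (by rintro rfl; simp at hm0) h
      exact ⟨r, h1, h2.mul_left _, h3⟩

omit [IsDedekindDomain R] in
theorem frob_fix {H : Type*} [CommRing H] (ψ : AddChar H R)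
    (hspan : ∀ y, y ∈ Submodule.span ℤ (Set.range ψ)) (σ : R →+* R) {s : H}
    (hσ : ∀ g, σ (ψ g) = ψ (s * g)) {q : ℕ} (hq : q.Prime) {j k : ℕ}
    (h : (q : H) ^ k * (s - (q : H) ^ j) = 0) (P : Ideal R) (hP : P.IsPrime) (hqP : (q : R) ∈ P) :
    ∀ y ∈ P, σ y ∈ P := by
  have := Fact.mk hq
  have hchar : CharP (R ⧸ P) q := by
    rw [CharP.charP_iff_prime_eq_zero hq, ← map_natCast (Ideal.Quotient.mk P),
      Ideal.Quotient.eq_zero_iff_mem]
    exact hqP
  have hpow : ∀ (g : H) (n : ℕ), ψ g ^ n = ψ ((n : H) * g) := by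
    intro g n
    rw [← AddChar.map_nsmul_eq_pow, nsmul_eq_mul]
  have key : ∀ y, Ideal.Quotient.mk P (σ y)
      = iterateFrobenius (R ⧸ P) q j (Ideal.Quotient.mk P y) := by
    intro y
    induction hspan y using Submodule.span_induction with
    | mem x hx =>
      obtain ⟨g, rfl⟩ := hx
      have h1 : Ideal.Quotient.mk P (ψ ((s - (q : H) ^ j) * g)) = 1 := by
        have h2 : (Ideal.Quotient.mk P (ψ ((s - (q : H) ^ j) * g)) - 1) ^ q ^ k = 0 := by
          rw [sub_pow_char_pow, ← map_pow, hpow, ← mul_assoc, Nat.cast_pow, h]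
          simp
        exact sub_eq_zero.mp (pow_eq_zero_iff (pow_ne_zero _ hq.ne_zero) |>.mp h2)
      rw [iterateFrobenius_def, ← map_pow, hpow, hσ,
        show s * g = ((q ^ j : ℕ) : H) * g + (s - (q : H) ^ j) * g by push_cast; ring,
        AddChar.map_add_eq_mul, map_mul, h1, mul_one]
    | zero => simp
    | add x y _ _ hx hy => rw [map_add, map_add, map_add, map_add, hx, hy]
    | smul a x _ hx => rw [map_zsmul, map_zsmul, map_zsmul, map_zsmul, hx]
  intro y hy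
  rw [← Ideal.Quotient.eq_zero_iff_mem, key, Ideal.Quotient.eq_zero_iff_mem.mpr hy, map_zero]

end loc

end Pool.Agent.Lib.MP_d3ed34_co.Dens
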