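import Pool.Agent.Lib.MP_d3ed34_co.Dens.Grade

set_option autoImplicit false
set_option linter.unusedSectionVars false

namespace Pool.Agent.Lib.MP_d3ed34_co.Dens

open Finset NumberField

theorem card_le_sum_norm (K : Type*) [Field K] [NumberField K] (z : 𝓞 K) (hz : z ≠ 0) :
    (Fintype.card (K →ₐ[ℚ] ℂ) : ℝ) ≤ ∑ φ : K →ₐ[ℚ] ℂ, ‖φ (z : K)‖ := by
  have h1 : (1 : ℝ) ≤ ∏ φ : K →ₐ[ℚ] ℂ, ‖φ (z : K)‖ := by
    rw [← norm_prod, ← Algebra.norm_eq_prod_embeddings ℚ ℂ, ← Algebra.coe_norm_int, eq_ratCast,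
      Rat.cast_intCast, Complex.norm_intCast]
    exact_mod_cast Int.one_le_abs (Algebra.norm_ne_zero_iff.mpr hz)
  have h2 : ∀ φ : K →ₐ[ℚ] ℂ, 0 < ‖φ (z : K)‖ := fun φ =>
    norm_pos_iff.mpr ((map_ne_zero φ).mpr (by exact_mod_cast hz))
  have h3 := Real.log_nonneg h1
  rw [Real.log_prod fun φ _ => (h2 φ).ne'] at h3
  have h4 : ∑ φ : K →ₐ[ℚ] ℂ, Real.log ‖φ (z : K)‖ ≤ ∑ φ : K →ₐ[ℚ] ℂ, (‖φ (z : K)‖ - 1) :=
    Finset.sum_le_sum fun φ _ => Real.log_le_sub_one_of_pos (h2 φ)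
  rw [Finset.sum_sub_distrib] at h4
  simp only [Finset.sum_const, Finset.card_univ, nsmul_eq_mul, mul_one] at h4
  linarith

variable {H : Type*} [CommRing H] [Fintype H] [DecidableEq H]

theorem parseval_all (f : H → ℤ) :
    ∑ η : AddChar H ℂ, ‖FZ η f 1‖ ^ 2 = Fintype.card H * ∑ g, (f g : ℝ) ^ 2 := by
  have h1 : ∀ η : AddChar H ℂ, ((‖FZ η f 1‖ ^ 2 : ℝ) : ℂ)
      = ∑ g, ∑ g', (f g : ℂ) * f g' * η (g - g') := by
    intro η
    rw [Complex.ofReal_pow, ← Complex.mul_conj']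
    unfold FZ FT
    rw [map_sum, Finset.sum_mul_sum]
    refine Finset.sum_congr rfl fun g _ => Finset.sum_congr rfl fun g' _ => ?_
    rw [map_mul (starRingEnd ℂ), map_intCast, one_mul, one_mul, ← AddChar.map_neg_eq_conj, sub_eq_add_neg,
      AddChar.map_add_eq_mul]
    ring
  apply Complex.ofReal_injective
  rw [Complex.ofReal_sum]
  simp_rw [h1]
  rw [Finset.sum_comm]
  push_cast
  rw [Finset.mul_sum]
  refine Finset.sum_congr rfl fun g _ => ?_
  rw [Finset.sum_comm]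
  simp_rw [← Finset.mul_sum, AddChar.sum_apply_eq_ite, sub_eq_zero]
  simp only [mul_ite, mul_zero, Finset.sum_ite_eq, Finset.mem_univ, if_true]
  ring

variable {p : ℕ} [hp : Fact p.Prime]

theorem cut_sq_le (c : H →+* ZMod p) (f : H → ℤ) (hf : ∀ g, |f g| ≤ 1) (i : ZMod p) :
    (p : ℝ) * ∑ g, (cut c f i g : ℝ) ^ 2 ≤ Fintype.card H := by
  have hs : Function.Surjective c := ZMod.ringHom_surjective c
  have h1 : Fintype.card H = ∑ j : ZMod p, #{g | c g = j} :=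
    Finset.card_eq_sum_card_fiberwise fun _ _ => Finset.mem_coe.mpr (Finset.mem_univ _)
  have h2 : ∀ j : ZMod p, #{g | c g = j} = #{g | c g = i} := fun j =>
    AddMonoidHom.card_fiber_eq_of_mem_range c (hs j) (hs i)
  simp only [h2, Finset.sum_const, Finset.card_univ, ZMod.card, smul_eq_mul] at h1
  rw [h1, Nat.cast_mul]
  refine mul_le_mul_of_nonneg_left ?_ (Nat.cast_nonneg _)
  rw [Finset.card_filter, Nat.cast_sum]
  refine Finset.sum_le_sum fun g _ => ?_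
  unfold cut
  split_ifs
  · have : (f g) ^ 2 ≤ 1 := (sq_le_one_iff_abs_le_one _).mpr (hf g)
    exact_mod_cast this
  · simp

variable {R : Type*} [CommRing R] [IsDedekindDomain R] [CharZero R]
variable {ψ : AddChar H R} {χ : AddChar (ZMod p) R} {c : H →+* ZMod p} {σ : R →+* R}

theorem map_FZ (E : R →+* ℂ) (ψ : AddChar H R) (f : H → ℤ) (r : H) :
    E (FZ ψ f r) = FZ (E.toMonoidHom.compAddChar ψ) f r := by
  unfold FZ FT
  rw [map_sum]
  exact Finset.sum_congr rfl fun g _ => by rw [map_mul, map_intCast]; rfl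

theorem norm_FZ_neg (η : AddChar H ℂ) (f : H → ℤ) :
    FZ η f 1 * FZ η f (-1) = ((‖FZ η f 1‖ ^ 2 : ℝ) : ℂ) := by
  rw [Complex.ofReal_pow, ← Complex.mul_conj']
  congr 1
  unfold FZ FT
  rw [map_sum]
  refine Finset.sum_congr rfl fun g _ => ?_
  rw [map_mul (starRingEnd ℂ), map_intCast, one_mul, ← AddChar.map_neg_eq_conj, neg_one_mul]

theorem Gr.count (h : Gr ψ χ c σ) {ι : Type*} [Fintype ι] [Nonempty ι] (E : ι → (R →+* ℂ))
    (hN : ∀ z, z ≠ 0 → (Fintype.card ι : ℝ) ≤ ∑ φ, ‖E φ z‖)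
    (hinj : Function.Injective fun φ => (E φ).toMonoidHom.compAddChar ψ)
    (f : H → ℤ) (hf : ∀ g, |f g| ≤ 1) {M d : ℕ} (hM : 0 < M)
    (hx : FZ ψ f 1 * FZ ψ f (-1) = (M * d : ℕ))
    (hd : ∀ i, (M : R) ∣ (χ 1 - 1) ^ 2 * (FZ ψ (cut c f i) 1 * FZ ψ (cut c f i) (-1))) :
    Fintype.card ι * (M * d) * p ≤ 4 * d * Fintype.card H ^ 2 := by
  classical
  set Y : ZMod p → R := fun i => FZ ψ (cut c f i) 1 * FZ ψ (cut c f i) (-1) with hY
  set a : ι → ZMod p → ℝ := fun φ i =>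
    ‖FZ ((E φ).toMonoidHom.compAddChar ψ) (cut c f i) 1‖ ^ 2 with ha
  have h1 : ∀ φ i, E φ (Y i) = (a φ i : ℂ) := fun φ i => by
    rw [hY, map_mul, map_FZ, map_FZ, norm_FZ_neg]
  have h2 : ∀ φ, ∑ i, a φ i = (M * d : ℕ) := by
    intro φ
    apply Complex.ofReal_injective
    have := congrArg (E φ) (h.energy f hx)
    rw [map_sum, map_natCast] at this
    rw [Complex.ofReal_sum, Complex.ofReal_natCast, ← this]
    exact Finset.sum_congr rfl fun i _ => (h1 φ i).symm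
  have hπ0 : χ 1 - 1 ≠ 0 := by
    rw [sub_ne_zero, Ne, chr_eq_one h.prim]
    exact one_ne_zero
  have h3 : ∀ i, Y i ≠ 0 → (Fintype.card ι : ℝ) * M ≤ 4 * ∑ φ, a φ i := by
    intro i hi
    obtain ⟨z, hz⟩ := hd i
    have hz0 : z ≠ 0 := by
      rintro rfl
      exact mul_ne_zero (pow_ne_zero 2 hπ0) hi (by rw [hz, mul_zero])
    refine (mul_le_mul_of_nonneg_right (hN z hz0) (Nat.cast_nonneg M)).trans ?_
    rw [Finset.sum_mul, Finset.mul_sum]
    refine Finset.sum_le_sum fun φ _ => ?_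
    have b1 := congrArg (fun y => ‖E φ y‖) hz
    simp only [map_mul (E φ) (M : R), map_natCast, norm_mul, Complex.norm_natCast] at b1
    have b2 : ‖E φ (χ 1 - 1)‖ ≤ 2 := by
      rw [map_sub, map_one (E φ)]
      have := ((E φ).toMonoidHom.compAddChar χ).norm_apply 1
      have b3 : ‖E φ (χ 1)‖ = 1 := this
      refine (norm_sub_le _ _).trans ?_
      rw [b3, norm_one]
      norm_num
    have b4 : 0 ≤ a φ i := by positivity
    rw [mul_comm, ← b1, map_mul, map_pow, norm_mul, norm_pow, h1, Complex.norm_real,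
      Real.norm_of_nonneg b4]
    have b5 : ‖E φ (χ 1 - 1)‖ ^ 2 ≤ 2 ^ 2 := by gcongr
    exact mul_le_mul_of_nonneg_right (by linarith) b4
  have h4 : ∀ i, (∑ φ, a φ i) * p ≤ (Fintype.card H : ℝ) ^ 2 := by
    intro i
    have b1 : ∑ φ, a φ i ≤ ∑ η : AddChar H ℂ, ‖FZ η (cut c f i) 1‖ ^ 2 := by
      rw [ha]
      refine (Finset.sum_image (s := univ) (g := fun φ => (E φ).toMonoidHom.compAddChar ψ)
        (f := fun η => ‖FZ η (cut c f i) 1‖ ^ 2) hinj.injOn).symm.le.trans ?_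
      exact Finset.sum_le_sum_of_subset_of_nonneg (Finset.subset_univ _) fun _ _ _ => by positivity
    rw [parseval_all] at b1
    have b2 := cut_sq_le c f hf i
    have b3 : (0 : ℝ) ≤ p := Nat.cast_nonneg _
    have b4 : (0 : ℝ) ≤ Fintype.card H := Nat.cast_nonneg _
    calc (∑ φ, a φ i) * p ≤ (Fintype.card H * ∑ g, (cut c f i g : ℝ) ^ 2) * p := by gcongr
      _ = Fintype.card H * (p * ∑ g, (cut c f i g : ℝ) ^ 2) := by ring
      _ ≤ Fintype.card H * Fintype.card H := by gcongr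
      _ = _ := by ring
  set N : Finset (ZMod p) := univ.filter fun i => Y i ≠ 0 with hNdef
  have h5 : ∑ i ∈ N, ∑ φ, a φ i = Fintype.card ι * (M * d : ℕ) := by
    rw [hNdef, Finset.sum_filter_of_ne, Finset.sum_comm]
    · simp [h2]
    · intro i _ hi hc
      refine hi (Finset.sum_eq_zero fun φ _ => ?_)
      have := h1 φ i
      rw [hc, map_zero] at this
      exact_mod_cast this.symm
  have h6 : (#N : ℝ) ≤ 4 * d := by
    have b1 : ∑ i ∈ N, (Fintype.card ι : ℝ) * M ≤ ∑ i ∈ N, 4 * ∑ φ, a φ i :=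
      Finset.sum_le_sum fun i hi => h3 i (Finset.mem_filter.mp hi).2
    rw [Finset.sum_const, ← Finset.mul_sum, h5, nsmul_eq_mul] at b1
    have b2 : (0 : ℝ) < (Fintype.card ι : ℝ) * M := by
      have := Fintype.card_pos (α := ι)
      positivity
    refine le_of_mul_le_mul_right ?_ b2
    push_cast at b1
    linarith
  have h7 : ∑ i ∈ N, (∑ φ, a φ i) * p ≤ ∑ i ∈ N, (Fintype.card H : ℝ) ^ 2 :=
    Finset.sum_le_sum fun i _ => h4 i
  rw [← Finset.sum_mul, h5, Finset.sum_const, nsmul_eq_mul] at h7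
  have h8 : (#N : ℝ) * (Fintype.card H : ℝ) ^ 2 ≤ 4 * d * (Fintype.card H : ℝ) ^ 2 := by gcongr
  exact_mod_cast h7.trans h8

end Pool.Agent.Lib.MP_d3ed34_co.Dens
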