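import Pool.Agent.Lib.MP_d3ed34_co.Dens.Count

set_option autoImplicit false
set_option linter.unusedSectionVars false

namespace Pool.Agent.Lib.MP_d3ed34_co.Dens

open Finset NumberField

theorem one_side {H : Type*} [CommRing H] [Fintype H] [DecidableEq H] {R : Type*} [CommRing R]
    [IsDomain R] [CharZero R] (ψ : AddChar H R) {n : ℕ} (X Y : H → ℤ)
    (h1 : ∀ c, ∑ g, X (c + g) * X g + ∑ g, Y (c + g) * Y g = if c = 0 then (n : ℤ) else 0)
    (h2 : ∀ c, ∑ g, Y (c + g) * X g = 0) :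
    FZ ψ X 1 * FZ ψ X (-1) = n ∨ FZ ψ Y 1 * FZ ψ Y (-1) = n := by
  have a1 : FZ ψ X 1 * FZ ψ X (-1) + FZ ψ Y 1 * FZ ψ Y (-1) = n := by
    rw [← FZ_corr, ← FZ_corr, ← FZ_add]
    simp only [h1]
    rw [FZ_delta]
    simp
  have a2 : FZ ψ Y 1 * FZ ψ X (-1) = 0 := by
    rw [← FZ_corr]
    simp only [h2]
    simp [FZ, FT]
  rcases mul_eq_zero.mp a2 with h | h
  · left
    rwa [h, zero_mul, add_zero] at a1
  · right
    rwa [h, mul_zero, zero_add] at a1

theorem descent_aux (t p : ℕ) [NeZero t] [hp : Fact p.Prime] (hp2 : p ≠ 2) {e a m d : ℕ}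
    (ht : t = e * p) (hpe : p ∣ e) (hm : ¬ p ∣ m) (hn : t = p ^ a * m * d)
    (hq : ∀ q : ℕ, q.Prime → q ∣ m →
      ∃ j k : ℕ, (q : ZMod t) ^ k * (1 + (e : ZMod t) - (q : ZMod t) ^ j) = 0)
    (X Y : ZMod t → ℤ) (hX : ∀ g, |X g| ≤ 1) (hY : ∀ g, |Y g| ≤ 1)
    (h1 : ∀ c, ∑ g, X (c + g) * X g + ∑ g, Y (c + g) * Y g = if c = 0 then (t : ℤ) else 0)
    (h2 : ∀ c, ∑ g, Y (c + g) * X g = 0)
    (K : Type) [Field K] [NumberField K] [IsCyclotomicExtension {t} ℚ K] :
    t.totient * p ≤ 4 * d * t := by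
  have ht0 : 0 < t := NeZero.pos t
  have hz := IsCyclotomicExtension.zeta_spec t ℚ K
  have hω := hz.toInteger_isPrimitiveRoot
  have htop := IsCyclotomicExtension.Rat.adjoin_singleton_eq_top hz
  set ω := hz.toInteger with hωdef
  have hζ : IsPrimitiveRoot (ω ^ e) p := hω.pow ht0 ht
  have hpt : p ∣ t := ht ▸ dvd_mul_left p e
  set ψ : AddChar (ZMod t) (𝓞 K) := AddChar.zmodChar t hω.pow_eq_one with hψ
  set χ : AddChar (ZMod p) (𝓞 K) := AddChar.zmodChar p hζ.pow_eq_one with hχ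
  set c : ZMod t →+* ZMod p := ZMod.castHom hpt (ZMod p) with hc
  have hee : (e : ZMod t) * e = 0 := by
    obtain ⟨e', he'⟩ := hpe
    have : e * e = t * e' := by
      rw [ht, mul_assoc, ← he']
    rw [← Nat.cast_mul, this, Nat.cast_mul, ZMod.natCast_self, zero_mul]
  have hu : IsUnit (1 + (e : ZMod t)) :=
    IsUnit.of_mul_eq_one (1 - (e : ZMod t)) (by linear_combination -hee)
  set τ := (IsCyclotomicExtension.Rat.galEquivZMod t K).symm hu.unit with hτ
  set σ := MulSemiringAction.toRingHom Gal(K/ℚ) (𝓞 K) τ with hσdef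
  have hσ : ∀ x : 𝓞 K, x ^ t = 1 → σ x = x ^ (1 + (e : ZMod t)).val := by
    intro x hx
    have := IsCyclotomicExtension.Rat.galEquivZMod_smul_of_pow_eq t K τ hx
    rw [hτ, MulEquiv.apply_symm_apply, IsUnit.unit_spec] at this
    exact this
  have hcv : ∀ g : ZMod t, c g = (g.val : ZMod p) := fun g => by
    rw [hc, ZMod.castHom_apply, ZMod.natCast_val]
  have hσψ : ∀ g, σ (ψ g) = ψ ((1 + (e : ZMod t)) * g) := by
    intro g
    rw [hσ _ (by rw [chr_pow]; simp), chr_pow, ZMod.natCast_zmod_val, mul_comm]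
  have hψ1 : ψ 1 = ω := by
    have := AddChar.zmodChar_apply' hω.pow_eq_one 1
    rwa [Nat.cast_one, pow_one] at this
  have hspan : ∀ y, y ∈ Submodule.span ℤ (Set.range ψ) := by
    intro y
    have hy : y ∈ Algebra.adjoin ℤ {ω} := htop ▸ Algebra.mem_top
    rw [Algebra.adjoin_singleton_eq_range_aeval] at hy
    obtain ⟨Γ, hΓ⟩ := hy
    obtain ⟨γ, hγ⟩ := exists_ofPoly ψ Γ
    have : y = FZ ψ γ 1 := by rw [hγ, hψ1]; exact hΓ.symm
    rw [this]
    refine Submodule.sum_mem _ fun g _ => ?_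
    rw [← zsmul_eq_mul]
    exact Submodule.smul_mem _ _ (Submodule.subset_span ⟨_, rfl⟩)
  have hG : Gr ψ χ c σ := by
    refine ⟨AddChar.zmodChar_primitive_of_primitive_root _ hζ, fun g => ?_, fun k => ?_, hspan⟩
    · rw [hσψ, add_mul, one_mul, AddChar.map_add_eq_mul, mul_comm (e : ZMod t), ← chr_pow, hcv,
        hχ, AddChar.zmodChar_apply', hψ, AddChar.zmodChar_apply, ← pow_mul, ← pow_mul,
        mul_comm e]
    · rw [hσ _ (by rw [chr_pow, (ZMod.natCast_eq_zero_iff t p).mpr hpt]; simp), chr_pow, ← hcv,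
        map_add, map_one, map_natCast, (ZMod.natCast_eq_zero_iff e p).mpr hpe, add_zero, mul_one]
  have key : ∀ f : ZMod t → ℤ, (∀ g, |f g| ≤ 1) → FZ ψ f 1 * FZ ψ f (-1) = t →
      t.totient * p ≤ 4 * d * t := by
    intro f hf hx
    have hM : 0 < p ^ a * m := by
      rw [hn] at ht0
      exact Nat.pos_of_mul_pos_right ht0
    have hx' : FZ ψ f 1 * FZ ψ f (-1) = (p ^ a * m * d : ℕ) := by rw [← hn, hx]
    have : Nonempty (K →ₐ[ℚ] ℂ) :=
      Fintype.card_pos_iff.mp (by rw [AlgHom.card]; exact Module.finrank_pos)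
    have b1 := hG.count (ι := K →ₐ[ℚ] ℂ) (fun φ => φ.toRingHom.comp (algebraMap (𝓞 K) K))
      (card_le_sum_norm K) (fun φ φ' h => ?_) f hf hM hx'
      (hG.cut_dvd hp2 f hm (fun q hq' hqm => ?_) ⟨d, by rw [hx', Nat.cast_mul]⟩)
    · rw [AlgHom.card, IsCyclotomicExtension.Rat.finrank t K, ZMod.card, ← hn] at b1
      refine Nat.le_of_mul_le_mul_right ?_ ht0
      linarith
    · have := DFunLike.congr_fun h 1
      refine (hz.powerBasis ℚ).algHom_ext ?_
      rw [hz.powerBasis_gen ℚ]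
      simp only [MonoidHom.compAddChar_apply, Function.comp_apply, hψ1] at this
      exact this
    · obtain ⟨j, k, h⟩ := hq q hq' hqm
      exact frob_fix ψ hspan σ hσψ hq' h
  rcases one_side ψ X Y h1 h2 with h | h
  · exact key X hX h
  · exact key Y hY h

end Pool.Agent.Lib.MP_d3ed34_co.Dens
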