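import Mathlib

set_option autoImplicit false

namespace Pool.Agent.Lib.MP_d3ed34_co.Dens

open Finset

theorem cyc_pow {G : Type*} [Group G] [Finite G] [IsCyclic G] {p N : ℕ} (hp : p.Prime) {h s : G}
    (h1 : h ≠ 1) (h2 : h ^ p ^ N = 1) (hs : s ^ p = 1) : ∃ l : ℕ, h ^ l = s := by
  classical
  have := Fintype.ofFinite G
  obtain ⟨i, -, hi⟩ := (Nat.dvd_prime_pow hp).mp (orderOf_dvd_of_pow_eq_one h2)
  have hd : p ∣ orderOf h := by
    rw [hi]
    refine dvd_pow_self p ?_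
    rintro rfl
    exact h1 (orderOf_eq_one_iff.mp (by simpa using hi))
  have ho := orderOf_pow_orderOf_div (orderOf_pos h).ne' hd
  set h' := h ^ (orderOf h / p) with hh'
  have hsub : (range p).image (h' ^ ·) ⊆ univ.filter fun a : G => a ^ p = 1 := by
    intro a ha
    obtain ⟨k, -, rfl⟩ := Finset.mem_image.mp ha
    simp only [Finset.mem_filter, Finset.mem_univ, true_and]
    rw [← pow_mul, mul_comm, pow_mul, ← ho, pow_orderOf_eq_one, one_pow]
  have hc : #((range p).image (h' ^ ·)) = p := by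
    rw [Finset.card_image_of_injOn, Finset.card_range]
    have := pow_injOn_Iio_orderOf (x := h')
    rw [ho] at this
    simpa using this
  have heq := Finset.eq_of_subset_of_card_le hsub
    (by rw [hc]; exact IsCyclic.card_pow_eq_one_le hp.pos)
  have : s ∈ (range p).image (h' ^ ·) := by
    rw [heq]
    simpa using hs
  obtain ⟨k, -, hk⟩ := Finset.mem_image.mp this
  exact ⟨orderOf h / p * k, by rw [pow_mul]; exact hk⟩

theorem not_dvd_totient {p w : ℕ} (hp : p.Prime) (h1 : ¬ p ∣ w)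
    (h2 : ∀ r : ℕ, r.Prime → r ∣ w → ¬ p ∣ r - 1) : ¬ p ∣ w.totient := by
  intro h
  have h3 := h.mul_right (∏ r ∈ w.primeFactors, r)
  rw [Nat.totient_mul_prod_primeFactors] at h3
  rcases (Nat.Prime.dvd_mul hp).mp h3 with h4 | h4
  · exact h1 h4
  · obtain ⟨r, hr, h5⟩ := (hp.prime.dvd_finsetProd_iff _).mp h4
    exact h2 r (Nat.prime_of_mem_primeFactors hr) (Nat.dvd_of_mem_primeFactors hr) h5

theorem exists_frob {t p A t₀ e q : ℕ} (hp : p.Prime) (hp2 : p ≠ 2)
    (ht : t = e * p) (hpe : p ∣ e) (hA : t = p ^ A * t₀) (hp0 : ¬ p ∣ t₀)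
    (hfree : ∀ r : ℕ, r.Prime → r ∣ t → ¬ p ∣ r - 1) (hq : q.Prime) (hqp : q ≠ p)
    (hW : ¬ q ^ (p - 1) ≡ 1 [MOD p ^ A]) :
    ∃ j k : ℕ, (q : ZMod t) ^ k * (1 + (e : ZMod t) - (q : ZMod t) ^ j) = 0 := by
  have ht₀ : t₀ ≠ 0 := by
    rintro rfl
    exact hp0 (dvd_zero p)
  obtain ⟨k, w, hw, hk⟩ := Nat.exists_eq_pow_mul_and_not_dvd ht₀ q hq.ne_one
  obtain ⟨B, rfl⟩ : ∃ B, A = B + 1 := by
    refine Nat.exists_eq_succ_of_ne_zero ?_
    rintro rfl
    rw [pow_zero, one_mul] at hA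
    exact hp0 (hA ▸ ht ▸ dvd_mul_left p e)
  have he : e = p ^ B * (q ^ k * w) := by
    refine Nat.eq_of_mul_eq_mul_right hp.pos ?_
    rw [← ht, hA, hk]
    ring
  have hpw : ¬ p ∣ w := fun h => hp0 (hk ▸ h.mul_left _)
  have hφ : ¬ p ∣ w.totient := not_dvd_totient hp hpw fun r hr hd =>
    hfree r hr (by rw [hA, hk]; exact (hd.mul_left _).mul_left _)
  have : NeZero (p ^ (B + 1)) := ⟨pow_ne_zero _ hp.ne_zero⟩
  have := ZMod.isCyclic_units_of_prime_pow p hp hp2 (B + 1)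
  have hco : q.Coprime (p ^ (B + 1)) := ((Nat.coprime_primes hq hp).mpr hqp).pow_right _
  set y := ZMod.unitOfCoprime q hco with hy
  have hy1 : (y ^ (p - 1)) ^ p ^ B = 1 := by
    rw [← pow_mul, mul_comm, ← Nat.totient_prime_pow_succ hp, ← ZMod.card_units_eq_totient]
    exact pow_card_eq_one
  have hy2 : (y ^ (p - 1)) ^ w.totient ≠ 1 := by
    intro h
    have h1 := pow_gcd_eq_one.mpr ⟨h, hy1⟩
    rw [(((Nat.Prime.coprime_iff_not_dvd hp).mpr hφ).symm.pow_right B).gcd_eq_one, pow_one] at h1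
    apply hW
    rw [← ZMod.natCast_eq_natCast_iff]
    have := congrArg Units.val h1
    simpa [hy] using this
  have hpe0 : (p : ZMod (p ^ (B + 1))) * e = 0 := by
    rw [← Nat.cast_mul, ZMod.natCast_eq_zero_iff, mul_comm, ← ht, hA]
    exact dvd_mul_right _ _
  have hee : (e : ZMod (p ^ (B + 1))) * e = 0 := by
    obtain ⟨e', he'⟩ := hpe
    nth_rewrite 1 [he']
    rw [Nat.cast_mul, mul_right_comm, hpe0, zero_mul]
  have hu : IsUnit (1 + (e : ZMod (p ^ (B + 1)))) :=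
    IsUnit.of_mul_eq_one (1 - (e : ZMod (p ^ (B + 1)))) (by linear_combination -hee)
  have hbin : ∀ n : ℕ, (1 + (e : ZMod (p ^ (B + 1)))) ^ n = 1 + n * e := by
    intro n
    induction n with
    | zero => simp
    | succ n ih =>
      rw [pow_succ _ n, ih]
      push_cast
      linear_combination n * hee
  have hs : hu.unit ^ p = 1 := by
    ext
    rw [Units.val_pow_eq_pow_val, IsUnit.unit_spec, hbin, hpe0, add_zero, Units.val_one]
  obtain ⟨l, hl⟩ := cyc_pow (N := B) hp hy2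
    (by rw [← pow_mul, mul_comm, pow_mul, hy1, one_pow]) hs
  have a1 : q ^ ((p - 1) * w.totient * l) ≡ 1 + e [MOD p ^ (B + 1)] := by
    rw [← ZMod.natCast_eq_natCast_iff]
    have := congrArg Units.val hl
    simpa [hy, pow_mul] using this
  have a2 : q ^ ((p - 1) * w.totient * l) ≡ 1 + e [MOD w] := by
    have b1 := (Nat.ModEq.pow_totient ((Nat.Prime.coprime_iff_not_dvd hq).mpr hw)).pow ((p - 1) * l)
    rw [one_pow, ← pow_mul, mul_left_comm, ← mul_assoc] at b1
    refine b1.trans ?_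
    have b2 : w ∣ e := he ▸ (dvd_mul_left w _).mul_left _
    simpa using (Nat.ModEq.refl 1).add ((Nat.modEq_zero_iff_dvd).mpr b2).symm
  have a3 := (Nat.modEq_and_modEq_iff_modEq_mul
    (((Nat.Prime.coprime_iff_not_dvd hp).mpr hpw).pow_left (B + 1))).mp ⟨a1, a2⟩
  have a4 := a3.mul_left' (q ^ k)
  rw [show q ^ k * (p ^ (B + 1) * w) = t by rw [hA, hk]; ring,
    ← ZMod.natCast_eq_natCast_iff] at a4
  refine ⟨(p - 1) * w.totient * l, k, ?_⟩
  push_cast at a4
  linear_combination -a4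

end Pool.Agent.Lib.MP_d3ed34_co.Dens
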