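import Pool.Agent.Lib.MP_d3ed34_co.Arith
import Pool.Agent.Lib.MP_d3ed34_co.Dens.Cyclo
import Pool.Agent.Lib.MP_d3ed34_co.Dens.Frob

set_option autoImplicit false

namespace Pool.Agent.Lib.MP_d3ed34_co.Dens

open Finset

theorem criterion {u p a m d : ℕ} (hu : Odd u) (hp : p.Prime) (ha : 0 < a) (h : u = p ^ a * m * d)
    (hmd : ¬ p ∣ m * d) (hfree : ∀ r : ℕ, r.Prime → r ∣ u → ¬ p ∣ r - 1)
    (hW : ∀ q : ℕ, q.Prime → q ∣ m → ¬ q ^ (p - 1) ≡ 1 [MOD p ^ (2 * a)]) [NeZero (u ^ 2)]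
    (φ : QuaternionGroup (u ^ 2) → ℤ) (hφ : ∀ g, φ g = 1 ∨ φ g = -1)
    (hH : ∀ g g', ∑ k, φ (g * k) * φ (g' * k) = if g = g' then 4 * ((u ^ 2 : ℕ) : ℤ) else 0) :
    p * u.totient ≤ 4 * d ^ 2 * u := by
  have := Fact.mk hp
  have hodd : Odd (u ^ 2) := hu.pow
  obtain ⟨X, Y, h1, h2, h3, h4⟩ := reduce (ZMod.chineseRemainder (Nat.coprime_two_left.mpr hodd))
    (ZMod.natCast_eq_one_iff_odd.mpr hodd) (ZMod.natCast_self _) φ hφ hH
  have hpu : p ∣ u := h ▸ ((dvd_pow_self p ha.ne').mul_right m).mul_right d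
  have hp2 : p ≠ 2 := by
    rintro rfl
    exact (Nat.not_even_iff_odd.mpr hu) (even_iff_two_dvd.mpr hpu)
  obtain ⟨v, hv⟩ := hpu
  have ht : u ^ 2 = p * v ^ 2 * p := by rw [hv]; ring
  have hm : ¬ p ∣ m := fun hc => hmd (hc.mul_right d)
  have : IsCyclotomicExtension {u ^ 2} ℚ (CyclotomicField (u ^ 2) ℚ) :=
    CyclotomicField.isCyclotomicExtension (u ^ 2) ℚ
  have key := descent_aux (u ^ 2) p hp2 (a := 2 * a) (m := m ^ 2) (d := d ^ 2) ht
    (dvd_mul_right p _) (fun hc => hm (hp.dvd_of_dvd_pow hc)) (by rw [h]; ring)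
    (fun q hq hqm => exists_frob (A := 2 * a) (t₀ := (m * d) ^ 2) hp hp2 ht (dvd_mul_right p _)
      (by rw [h]; ring) (fun hc => hmd (hp.dvd_of_dvd_pow hc))
      (fun r hr hd => hfree r hr (hr.dvd_of_dvd_pow hd)) hq
      (by rintro rfl; exact hm (hq.dvd_of_dvd_pow hqm)) (hW q hq (hq.dvd_of_dvd_pow hqm)))
    X Y h1 h2 h3 h4 (CyclotomicField (u ^ 2) ℚ)
  have hu0 : 0 < u := hu.pos
  have h5 := Nat.totient_gcd_mul_totient_mul u u
  rw [Nat.gcd_self, mul_assoc, ← sq] at h5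
  rw [Nat.eq_of_mul_eq_mul_left (Nat.totient_pos.mpr hu0) h5] at key
  refine Nat.le_of_mul_le_mul_right ?_ hu0
  linarith

theorem prod_sq_le (A : Finset ℕ) (hA : ∀ r ∈ A, Odd r ∧ 3 ≤ r) (N : ℕ) (hN : 1 ≤ N)
    (h : ∀ r ∈ A, r ≤ N) : (∏ r ∈ A, r) ^ 2 ≤ N * (∏ r ∈ A, (r - 1)) ^ 2 := by
  induction A using Finset.induction_on_max generalizing N with
  | empty => simpa using hN
  | insert r A hr ih =>
    have hn : r ∉ A := fun hc => lt_irrefl _ (hr r hc)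
    obtain ⟨h1, h2⟩ := hA r (Finset.mem_insert_self _ _)
    obtain ⟨s, rfl⟩ : ∃ s, r = s + 2 := ⟨r - 2, by omega⟩
    have h3 := ih (fun x hx => hA x (Finset.mem_insert_of_mem hx)) s (by omega) fun x hx => by
      have b1 := hr x hx
      have b2 := (hA x (Finset.mem_insert_of_mem hx)).1
      rw [Nat.odd_iff] at h1 b2
      omega
    have h4 := h _ (Finset.mem_insert_self _ _)
    rw [Finset.prod_insert hn, Finset.prod_insert hn, mul_pow, mul_pow,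
      show s + 2 - 1 = s + 1 by omega]
    calc (s + 2) ^ 2 * (∏ r ∈ A, r) ^ 2 ≤ (s + 2) ^ 2 * (s * (∏ r ∈ A, (r - 1)) ^ 2) := by gcongr
      _ = (s + 2) * (((s + 2) * s) * (∏ r ∈ A, (r - 1)) ^ 2) := by ring
      _ ≤ N * ((s + 1) ^ 2 * (∏ r ∈ A, (r - 1)) ^ 2) := by
        gcongr
        nlinarith

theorem sq_le_totient {u N : ℕ} (hu : Odd u) (hN : 1 ≤ N) (h : ∀ r : ℕ, r.Prime → r ∣ u → r ≤ N) :
    u ^ 2 ≤ N * u.totient ^ 2 := by
  have h1 := prod_sq_le u.primeFactors (fun r hr => by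
    have b1 := Nat.prime_of_mem_primeFactors hr
    have b2 := hu.of_dvd_nat (Nat.dvd_of_mem_primeFactors hr)
    have b3 := b1.two_le
    refine ⟨b2, ?_⟩
    rw [Nat.odd_iff] at b2
    omega) N hN fun r hr => h r (Nat.prime_of_mem_primeFactors hr) (Nat.dvd_of_mem_primeFactors hr)
  have h2 := Nat.totient_mul_prod_primeFactors u
  have h3 : 0 < (∏ r ∈ u.primeFactors, r) ^ 2 :=
    pow_pos (Finset.prod_pos fun r hr => (Nat.prime_of_mem_primeFactors hr).pos) 2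
  refine Nat.le_of_mul_le_mul_right ?_ h3
  calc u ^ 2 * (∏ r ∈ u.primeFactors, r) ^ 2
      ≤ u ^ 2 * (N * (∏ r ∈ u.primeFactors, (r - 1)) ^ 2) := by gcongr
    _ = N * (u * ∏ r ∈ u.primeFactors, (r - 1)) ^ 2 := by ring
    _ = _ := by rw [← h2]; ring

theorem split_pred (Q : ℕ → Prop) (w : ℕ) (hw : w ≠ 0) : ∃ m d, w = m * d ∧
    (∀ q : ℕ, q.Prime → q ∣ m → ¬ Q q) ∧ ∀ q : ℕ, q.Prime → q ∣ d → Q q := by
  induction w using induction_on_primes with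
  | zero => exact absurd rfl hw
  | one => exact ⟨1, 1, rfl, fun q hq h => absurd (Nat.dvd_one.mp h) hq.ne_one,
      fun q hq h => absurd (Nat.dvd_one.mp h) hq.ne_one⟩
  | prime_mul r a hr ih =>
    obtain ⟨m, d, rfl, h1, h2⟩ := ih (by rintro rfl; simp at hw)
    by_cases hQ : Q r
    · refine ⟨m, r * d, by ring, h1, fun q hq h => ?_⟩
      rcases (Nat.Prime.dvd_mul hq).mp h with h | h
      · rwa [(Nat.prime_dvd_prime_iff_eq hq hr).mp h]
      · exact h2 q hq h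
    · refine ⟨r * m, d, by ring, fun q hq h => ?_, h2⟩
      rcases (Nat.Prime.dvd_mul hq).mp h with h | h
      · rwa [(Nat.prime_dvd_prime_iff_eq hq hr).mp h]
      · exact h1 q hq h

theorem pow_modEq_of_primes {n k : ℕ} (d : ℕ) (hd : d ≠ 0)
    (h : ∀ q : ℕ, q.Prime → q ∣ d → q ^ k ≡ 1 [MOD n]) : d ^ k ≡ 1 [MOD n] := by
  induction d using induction_on_primes with
  | zero => exact absurd rfl hd
  | one => rw [one_pow]
  | prime_mul r a hr ih =>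
    rw [mul_pow]
    exact (h r hr (dvd_mul_right _ _)).mul
      (ih (by rintro rfl; simp at hd) fun q hq hqa => h q hq (hqa.mul_left _))

/-- An exceptional `u` is divisible by `p d` with `p` its largest prime and `d` a solution of
`d ^ (p - 1) ≡ 1` modulo `p ^ 2` of moderate size. -/
theorem exceptional {u z : ℕ} (hu : Odd u) (hz : 16 ≤ z) (hs : u ∉ Nat.smoothNumbers (z + 1))
    [NeZero (u ^ 2)] (φ : QuaternionGroup (u ^ 2) → ℤ) (hφ : ∀ g, φ g = 1 ∨ φ g = -1)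
    (hH : ∀ g g', ∑ k, φ (g * k) * φ (g' * k) = if g = g' then 4 * ((u ^ 2 : ℕ) : ℤ) else 0) :
    ∃ p d : ℕ, p.Prime ∧ z < p ∧ p * d ∣ u ∧ p ≤ 16 * d ^ 4 ∧ d ≤ p ^ 2 ∧
      d ^ (p - 1) ≡ 1 [MOD p ^ 2] := by
  classical
  have hu0 : u ≠ 0 := hu.pos.ne'
  rw [Nat.mem_smoothNumbers'] at hs
  push Not at hs
  obtain ⟨p₀, hp₀, hd₀, hz₀⟩ := hs
  have hmem : p₀ ∈ u.primeFactors := Nat.mem_primeFactors.mpr ⟨hp₀, hd₀, hu0⟩
  obtain ⟨p, hp1, hmax⟩ := u.primeFactors.exists_max_image id ⟨p₀, hmem⟩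
  have hp := Nat.prime_of_mem_primeFactors hp1
  have hpu := Nat.dvd_of_mem_primeFactors hp1
  have hle : ∀ r : ℕ, r.Prime → r ∣ u → r ≤ p := fun r hr hd =>
    hmax r (Nat.mem_primeFactors.mpr ⟨hr, hd, hu0⟩)
  have hzp : z < p := lt_of_lt_of_le hz₀ (hle p₀ hp₀ hd₀)
  obtain ⟨a, w, hw, h⟩ := Nat.exists_eq_pow_mul_and_not_dvd hu0 p hp.ne_one
  have ha : 0 < a := by
    refine Nat.pos_of_ne_zero ?_
    rintro rfl
    rw [pow_zero, one_mul] at h
    exact hw (h ▸ hpu)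
  obtain ⟨m, d, rfl, h1, h2⟩ := split_pred (fun q => q ^ (p - 1) ≡ 1 [MOD p ^ (2 * a)]) w
    (by rintro rfl; exact hw (dvd_zero p))
  have h3 := criterion hu hp ha (h.trans (mul_assoc _ _ _).symm) hw (fun r hr hd hc => by
    have b1 := hle r hr hd
    have b2 := hr.two_le
    have := Nat.le_of_dvd (by omega) hc
    omega) h1 φ hφ hH
  have h4 := sq_le_totient hu hp.one_le hle
  have h5 : p ≤ 16 * d ^ 4 := by
    have b1 : 0 < p * u.totient ^ 2 := Nat.mul_pos hp.pos (pow_pos (Nat.totient_pos.mpr hu.pos) 2)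
    refine Nat.le_of_mul_le_mul_right ?_ b1
    calc p * (p * u.totient ^ 2) = (p * u.totient) ^ 2 := by ring
      _ ≤ (4 * d ^ 2 * u) ^ 2 := by gcongr
      _ = 16 * d ^ 4 * u ^ 2 := by ring
      _ ≤ _ := by gcongr
  have hd0 : d ≠ 0 := by
    rintro rfl
    simp at hw
  have hex : ∃ d', d' ∣ d ∧ p ≤ 16 * d' ^ 4 := ⟨d, dvd_rfl, h5⟩
  obtain ⟨h6, h7⟩ := Nat.find_spec hex
  have hmin := fun k => Nat.find_min hex (m := k)
  set d' := Nat.find hex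
  have hd1 : d' ≠ 1 := by
    intro hc
    rw [hc] at h7
    omega
  have hd'0 : d' ≠ 0 := ne_zero_of_dvd_ne_zero hd0 h6
  obtain ⟨q, hq, k, hk⟩ := Nat.exists_prime_and_dvd hd1
  have hdu : d ∣ u := h ▸ (dvd_mul_left d m).mul_left _
  have hqp : q ≤ p := hle q hq (((Dvd.intro k hk.symm).trans h6).trans hdu)
  have hk0 : 0 < k := Nat.pos_of_ne_zero (by rintro rfl; simp [hd'0] at hk)
  have hkp : k ≤ p := by
    have b1 := hmin k (by have := hq.two_le; nlinarith)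
    have b2 : 16 * k ^ 4 < p := by
      by_contra hc
      exact b1 ⟨(Dvd.intro_left q hk.symm).trans h6, not_lt.mp hc⟩
    have b3 : k ≤ k ^ 4 := Nat.le_self_pow (by norm_num) k
    omega
  refine ⟨p, d', hp, hzp, ?_, h7, ?_, pow_modEq_of_primes d' hd'0 fun r hr hrd => ?_⟩
  · rw [h]
    exact mul_dvd_mul (dvd_pow_self p ha.ne') (h6.mul_left m)
  · rw [hk, sq]
    exact Nat.mul_le_mul hqp hkp
  · exact (h2 r hr (hrd.trans h6)).of_dvd (pow_dvd_pow p (by omega))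

end Pool.Agent.Lib.MP_d3ed34_co.Dens
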