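import Mathlib

set_option autoImplicit false

namespace Pool.Agent.Lib.MP_d3ed34_co.Dens

open Finset

theorem card_divisors_pow_le (k : ℕ) :
    ∃ C : ℕ, 1 ≤ C ∧ ∀ n : ℕ, n ≠ 0 → #n.divisors ^ k ≤ C * n := by
  set C0 := k.factorial * 2 ^ k with hC0
  have hC : 1 ≤ C0 := Nat.one_le_iff_ne_zero.2 (by positivity)
  refine ⟨C0 ^ 2 ^ k, Nat.one_le_pow _ _ hC, fun n hn => ?_⟩
  rw [Nat.card_divisors hn, ← prod_pow]
  calc ∏ p ∈ n.primeFactors, (n.factorization p + 1) ^ k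
      ≤ ∏ p ∈ n.primeFactors, (if p < 2 ^ k then C0 else 1) * p ^ n.factorization p := by
        refine prod_le_prod' fun p hp => ?_
        have h2 := (Nat.prime_of_mem_primeFactors hp).two_le
        generalize n.factorization p = a
        split_ifs with h
        · calc (a + 1) ^ k ≤ (a + 1).ascFactorial k := Nat.pow_succ_le_ascFactorial _ _
            _ = k.factorial * (a + k).choose k := Nat.ascFactorial_eq_factorial_mul_choose _ _
            _ ≤ k.factorial * 2 ^ (a + k) := by gcongr; exact Nat.choose_le_two_pow _ _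
            _ = C0 * 2 ^ a := by rw [hC0]; ring
            _ ≤ C0 * p ^ a := by gcongr
        · calc (a + 1) ^ k ≤ (2 ^ a) ^ k := by gcongr; exact Nat.lt_two_pow_self
            _ = (2 ^ k) ^ a := by rw [← pow_mul, ← pow_mul, mul_comm]
            _ ≤ 1 * p ^ a := by rw [one_mul]; gcongr; omega
    _ ≤ C0 ^ 2 ^ k * n := by
        rw [prod_mul_distrib]
        gcongr
        · rw [prod_ite, prod_const_one, mul_one, prod_const]
          refine Nat.pow_le_pow_right hC ?_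
          calc _ ≤ #(range (2 ^ k)) := card_le_card fun p hp => mem_range.2 (mem_filter.1 hp).2
            _ = _ := card_range _
        · exact (Nat.prod_factorization_pow_eq_self hn).le

theorem sum_inv_le (n : ℕ) : ∑ i ∈ Icc 1 n, (i : ℝ)⁻¹ ≤ 1 + Real.log n := by
  have := harmonic_le_one_add_log n
  simpa only [harmonic_eq_sum_Icc, Rat.cast_sum, Rat.cast_inv, Rat.cast_natCast] using this

/-- The solutions of `n ^ (p - 1) ≡ 1` modulo `p ^ 2` in the interval from `L` to `U`. -/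
def sol (p L U : ℕ) : Finset ℕ := (Icc L U).filter fun n => n ^ (p - 1) ≡ 1 [MOD p ^ 2]

theorem sol_sq (p L U : ℕ) (hL : 1 ≤ L) {T : ℝ}
    (hT : ∀ n : ℕ, n ≠ 0 → n ≤ U ^ 2 → (#n.divisors : ℝ) ≤ T) :
    (∑ n ∈ sol p L U, (n : ℝ)⁻¹) ^ 2 ≤ T * ∑ n ∈ sol p (L ^ 2) (U ^ 2), (n : ℝ)⁻¹ := by
  rw [sq, Finset.sum_mul_sum, ← Finset.sum_product', Finset.mul_sum,
    ← Finset.sum_fiberwise_of_maps_to (t := sol p (L ^ 2) (U ^ 2)) (g := fun x => x.1 * x.2)]
  · refine Finset.sum_le_sum fun n hn => ?_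
    have hn' := Finset.mem_Icc.mp (Finset.mem_filter.mp hn).1
    have hn0 : n ≠ 0 := by
      have := Nat.one_le_pow 2 L hL
      omega
    rw [Finset.sum_congr rfl (g := fun _ => (n : ℝ)⁻¹) fun x hx => by
      rw [← (Finset.mem_filter.mp hx).2, Nat.cast_mul, mul_inv], Finset.sum_const, nsmul_eq_mul]
    refine mul_le_mul_of_nonneg_right (le_trans ?_ (hT n hn0 hn'.2)) (by positivity)
    refine Nat.cast_le.mpr (Finset.card_le_card_of_injOn Prod.fst (fun x hx => ?_) ?_)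
    · exact Finset.mem_coe.mpr (Nat.mem_divisors.mpr
        ⟨Dvd.intro _ (Finset.mem_filter.mp (Finset.mem_coe.mp hx)).2, hn0⟩)
    · intro x hx y hy hxy
      have h1 := (Finset.mem_filter.mp (Finset.mem_coe.mp hx)).2
      have h2 := (Finset.mem_filter.mp (Finset.mem_coe.mp hy)).2
      refine Prod.ext hxy (Nat.eq_of_mul_eq_mul_left (n := x.1) (Nat.pos_of_ne_zero ?_) ?_)
      · intro hc
        rw [hc, zero_mul] at h1
        exact hn0 h1.symm
      · rw [h1, hxy, h2]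
  · intro x hx
    obtain ⟨h1, h2⟩ := Finset.mem_product.mp hx
    obtain ⟨a1, a2⟩ := Finset.mem_filter.mp h1
    obtain ⟨b1, b2⟩ := Finset.mem_filter.mp h2
    rw [Finset.mem_Icc] at a1 b1
    refine Finset.mem_filter.mpr ⟨Finset.mem_Icc.mpr ⟨?_, ?_⟩, ?_⟩
    · rw [sq]
      exact Nat.mul_le_mul a1.1 b1.1
    · rw [sq]
      exact Nat.mul_le_mul a1.2 b1.2
    · rw [mul_pow]
      exact a2.mul b2

theorem sol_modEq {p n n' : ℕ} (hp : 0 < p) (h : n ^ (p - 1) ≡ 1 [MOD p ^ 2])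
    (h' : n' ^ (p - 1) ≡ 1 [MOD p ^ 2]) (hn : n ≡ n' [MOD p]) : n ≡ n' [MOD p ^ 2] := by
  have key : ∀ a : ℕ, a ^ (p - 1) ≡ 1 [MOD p ^ 2] → a ^ p ≡ a [MOD p ^ 2] := by
    intro a ha
    have := ha.mul_right a
    rwa [one_mul, ← pow_succ, Nat.sub_add_cancel hp] at this
  have h1 := dvd_sub_pow_of_dvd_sub (Nat.modEq_iff_dvd.mp hn) 1
  refine (key n h).symm.trans (Nat.ModEq.trans ?_ (key n' h'))
  rw [Nat.modEq_iff_dvd]
  simpa using h1

theorem sol_tail (p L U : ℕ) (hp : 0 < p) (hL : 1 ≤ L) :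
    ∑ n ∈ sol p L U, (n : ℝ)⁻¹ ≤ p * ((L : ℝ)⁻¹ + (1 + Real.log U) / p ^ 2) := by
  set g : ℕ → ℝ := fun j => if j = 0 then (L : ℝ)⁻¹ else (j : ℝ)⁻¹ / p ^ 2 with hg
  have hg0 : ∀ j, 0 ≤ g j := fun j => by
    simp only [hg]
    split_ifs <;> positivity
  have hp2 : 0 < p ^ 2 := pow_pos hp 2
  have h1 : ∑ n ∈ sol p L U, (n : ℝ)⁻¹ ≤ ∑ n ∈ sol p L U, g (n % p, n / p ^ 2).2 := by
    refine Finset.sum_le_sum fun n hn => ?_
    have hn' := Finset.mem_Icc.mp (Finset.mem_filter.mp hn).1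
    simp only [hg]
    split_ifs with h
    · exact inv_anti₀ (by exact_mod_cast hL) (by exact_mod_cast hn'.1)
    · rw [div_eq_mul_inv, ← mul_inv]
      refine inv_anti₀ (by have := Nat.pos_of_ne_zero h; positivity) ?_
      exact_mod_cast Nat.div_mul_le_self n (p ^ 2)
  have h2 : ∑ n ∈ sol p L U, g (n % p, n / p ^ 2).2
      ≤ ∑ x ∈ range p ×ˢ range (U + 1), g x.2 := by
    rw [← Finset.sum_image (g := fun n => (n % p, n / p ^ 2)) (f := fun x : ℕ × ℕ => g x.2)]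
    · refine Finset.sum_le_sum_of_subset_of_nonneg (fun x hx => ?_) fun x _ _ => hg0 _
      obtain ⟨n, hn, rfl⟩ := Finset.mem_image.mp hx
      have hn' := Finset.mem_Icc.mp (Finset.mem_filter.mp hn).1
      refine Finset.mem_product.mpr ⟨Finset.mem_range.mpr (Nat.mod_lt _ hp),
        Finset.mem_range.mpr ?_⟩
      have := Nat.div_le_self n (p ^ 2)
      simp only
      omega
    · intro n hn n' hn' h
      have a1 : n % p ^ 2 = n' % p ^ 2 :=
        sol_modEq hp (Finset.mem_filter.mp (Finset.mem_coe.mp hn)).2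
          (Finset.mem_filter.mp (Finset.mem_coe.mp hn')).2 (congrArg Prod.fst h)
      have a2 : n / p ^ 2 = n' / p ^ 2 := congrArg Prod.snd h
      rw [← Nat.mod_add_div n (p ^ 2), ← Nat.mod_add_div n' (p ^ 2), a1, a2]
  refine (h1.trans h2).trans ?_
  rw [Finset.sum_product]
  simp only [Finset.sum_const, Finset.card_range, nsmul_eq_mul]
  refine mul_le_mul_of_nonneg_left ?_ (Nat.cast_nonneg p)
  rw [Finset.range_eq_Ico, Finset.sum_eq_sum_Ico_succ_bot (Nat.add_one_pos U),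
    Finset.Ico_add_one_right_eq_Icc]
  refine add_le_add (by simp [hg]) ?_
  have h3 : ∑ j ∈ Icc (0 + 1) U, g j = ∑ j ∈ Icc 1 U, (j : ℝ)⁻¹ / p ^ 2 :=
    Finset.sum_congr rfl fun j hj => by
      have := (Finset.mem_Icc.mp hj).1
      simp only [hg]
      rw [if_neg (by omega)]
  rw [h3, ← Finset.sum_div]
  gcongr
  exact sum_inv_le U

theorem sol_small : ∃ C : ℝ, 0 < C ∧ ∀ p L : ℕ, 0 < p → p ≤ 16 * L ^ 4 →
    ∑ n ∈ sol p L (p ^ 2), (n : ℝ)⁻¹ ≤ C / (p : ℝ) ^ (1 / 16 : ℝ) := by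
  obtain ⟨C, hC1, hC⟩ := card_divisors_pow_le 448
  have hC1' : (1 : ℝ) ≤ C := by exact_mod_cast hC1
  refine ⟨321 * C, by positivity, fun p L hp hL => ?_⟩
  have hL1 : 1 ≤ L := by
    rcases Nat.eq_zero_or_pos L with rfl | h
    · omega
    · exact h
  have hp1 : (1 : ℝ) ≤ p := by exact_mod_cast hp
  set y : ℝ := (p : ℝ) ^ (1 / 112 : ℝ) with hy
  have hy1 : 1 ≤ y := Real.one_le_rpow hp1 (by norm_num)
  have hy2 : y ^ 112 = p := by
    rw [hy, ← Real.rpow_natCast, ← Real.rpow_mul (by positivity)]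
    norm_num
  have hy3 : y ^ 7 = (p : ℝ) ^ (1 / 16 : ℝ) := by
    rw [hy, ← Real.rpow_natCast, ← Real.rpow_mul (by positivity)]
    norm_num
  have hT : ∀ n : ℕ, n ≠ 0 → n ≤ p ^ 16 → (#n.divisors : ℝ) ≤ C * y ^ 4 := by
    intro n hn h
    refine le_of_pow_le_pow_left₀ (n := 448) (by norm_num) (by positivity) ?_
    have h1 : (#n.divisors : ℝ) ^ 448 ≤ C * p ^ 16 := by
      exact_mod_cast (hC n hn).trans (Nat.mul_le_mul_left C h)
    refine h1.trans ?_
    rw [mul_pow, ← hy2, ← pow_mul, ← pow_mul]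
    gcongr
    exact le_self_pow₀ hC1' (by norm_num)
  have hle : ∀ k, k ≤ 16 → p ^ k ≤ p ^ 16 := fun k hk => Nat.pow_le_pow_right hp hk
  have a1 := sol_sq p L (p ^ 2) hL1 fun n hn h =>
    hT n hn (h.trans (by rw [← pow_mul]; exact hle _ (by norm_num)))
  have a2 := sol_sq p (L ^ 2) ((p ^ 2) ^ 2) (Nat.one_le_pow _ _ hL1) fun n hn h =>
    hT n hn (h.trans (by rw [← pow_mul, ← pow_mul]; exact hle _ (by norm_num)))
  have a3 := sol_sq p ((L ^ 2) ^ 2) (((p ^ 2) ^ 2) ^ 2)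
    (Nat.one_le_pow _ _ (Nat.one_le_pow _ _ hL1)) fun n hn h =>
    hT n hn (h.trans (by rw [← pow_mul, ← pow_mul, ← pow_mul]))
  have a4 := sol_tail p (((L ^ 2) ^ 2) ^ 2) ((((p ^ 2) ^ 2) ^ 2) ^ 2) hp
    (Nat.one_le_pow _ _ (Nat.one_le_pow _ _ (Nat.one_le_pow _ _ hL1)))
  have b1 : ((((L ^ 2) ^ 2) ^ 2 : ℕ) : ℝ)⁻¹ ≤ 256 / p ^ 2 := by
    rw [inv_eq_one_div, div_le_div_iff₀ (by positivity) (by positivity)]
    have : p ^ 2 ≤ (16 * L ^ 4) ^ 2 := by gcongr
    have : (p : ℝ) ^ 2 ≤ (16 * L ^ 4) ^ 2 := by exact_mod_cast this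
    push_cast
    linarith
  have b2 : Real.log ((((p ^ 2) ^ 2) ^ 2) ^ 2 : ℕ) ≤ 64 * y ^ 28 := by
    have c1 : (((((p ^ 2) ^ 2) ^ 2) ^ 2 : ℕ) : ℝ) = (y ^ 28) ^ 64 := by
      push_cast
      rw [← hy2]
      ring
    rw [c1, Real.log_pow]
    have := Real.log_le_sub_one_of_pos (show 0 < y ^ 28 by positivity)
    push_cast
    linarith
  have b3 : 1 ≤ y ^ 28 := one_le_pow₀ hy1
  have b4 : ∑ n ∈ sol p (((L ^ 2) ^ 2) ^ 2) ((((p ^ 2) ^ 2) ^ 2) ^ 2), (n : ℝ)⁻¹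
      ≤ 321 * y ^ 28 / y ^ 112 := by
    refine a4.trans ?_
    rw [hy2]
    calc (p : ℝ) * _ ≤ p * (256 / p ^ 2 + (1 + 64 * y ^ 28) / p ^ 2) := by gcongr
      _ = (257 + 64 * y ^ 28) / p := by field_simp; ring
      _ ≤ _ := by gcongr; linarith
  rw [← hy3]
  refine le_of_pow_le_pow_left₀ (n := 8) (by norm_num) (by positivity) ?_
  set s₀ := ∑ n ∈ sol p L (p ^ 2), (n : ℝ)⁻¹
  set s₁ := ∑ n ∈ sol p (L ^ 2) ((p ^ 2) ^ 2), (n : ℝ)⁻¹
  set s₂ := ∑ n ∈ sol p ((L ^ 2) ^ 2) (((p ^ 2) ^ 2) ^ 2), (n : ℝ)⁻¹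
  set s₃ := ∑ n ∈ sol p (((L ^ 2) ^ 2) ^ 2) ((((p ^ 2) ^ 2) ^ 2) ^ 2), (n : ℝ)⁻¹
  calc s₀ ^ 8 = (s₀ ^ 2) ^ 4 := by ring
    _ ≤ (C * y ^ 4 * s₁) ^ 4 := by gcongr
    _ = (C * y ^ 4) ^ 4 * (s₁ ^ 2) ^ 2 := by ring
    _ ≤ (C * y ^ 4) ^ 4 * (C * y ^ 4 * s₂) ^ 2 := by gcongr
    _ = (C * y ^ 4) ^ 6 * s₂ ^ 2 := by ring
    _ ≤ (C * y ^ 4) ^ 6 * (C * y ^ 4 * s₃) := by gcongr
    _ ≤ (C * y ^ 4) ^ 6 * (C * y ^ 4 * (321 * y ^ 28 / y ^ 112)) := by gcongr
    _ = 321 * C ^ 7 / (y ^ 7) ^ 8 := by field_simp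
    _ ≤ _ := by
      rw [div_pow, mul_pow]
      gcongr
      · norm_num
      · norm_num

theorem rankin {w : ℝ} (hw : 2 ≤ w) (N z : ℕ) (hz : (z : ℝ) ≤ Real.exp w) :
    (#(Nat.smoothNumbersUpTo N (z + 1)) : ℝ)
      ≤ (N : ℝ) ^ (1 - 1 / w) * Real.exp (12 * (1 + w)) := by
  have hw0 : 0 < w := by linarith
  have hw1 : 1 / w ≤ 1 / 2 := one_div_le_one_div_of_le (by norm_num) hw
  set σ := 1 - 1 / w with hσ
  have hσ0 : 1 / 2 ≤ σ := by linarith
  let f : ℕ →* ℝ :=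
    { toFun := fun n => (n : ℝ) ^ (-σ)
      map_one' := by simp
      map_mul' := fun a b => by
        rw [Nat.cast_mul, Real.mul_rpow (Nat.cast_nonneg a) (Nat.cast_nonneg b)] }
  have hf : ∀ n : ℕ, f n = (n : ℝ) ^ (-σ) := fun n => rfl
  have hf0 : ∀ n : ℕ, 0 ≤ f n := fun n => by rw [hf]; positivity
  have hf1 : ∀ p : ℕ, p.Prime → f p ≤ 3 / 4 := by
    intro p hp
    have h2 : (2 : ℝ) ≤ p := by exact_mod_cast hp.two_le
    have h3 : f p ≤ (2 : ℝ) ^ (-(1 / 2) : ℝ) := by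
      rw [hf]
      exact (Real.rpow_le_rpow_of_exponent_le (by linarith) (by linarith)).trans
        (Real.rpow_le_rpow_of_nonpos (by norm_num) h2 (by norm_num))
    refine h3.trans (le_of_pow_le_pow_left₀ (n := 2) (by norm_num) (by norm_num) ?_)
    rw [← Real.rpow_natCast, ← Real.rpow_mul (by norm_num)]
    norm_num
  have hs := (EulerProduct.summable_and_hasSum_smoothNumbers_prod_primesBelow_geometric (f := f)
    (fun {p} hp => by rw [Real.norm_of_nonneg (hf0 p)]; linarith [hf1 p hp]) (z + 1)).2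
  have h1 : ∑ n ∈ Nat.smoothNumbersUpTo N (z + 1), f n
      ≤ ∏ p ∈ (z + 1).primesBelow, (1 - f p)⁻¹ := by
    rw [← Finset.sum_subtype_of_mem (p := (· ∈ (z + 1).smoothNumbers)) _
      fun n hn => (Nat.mem_smoothNumbersUpTo.mp hn).2]
    exact sum_le_hasSum _ (fun _ _ => hf0 _) hs
  have h2 : ∏ p ∈ (z + 1).primesBelow, (1 - f p)⁻¹ ≤ Real.exp (12 * (1 + w)) := by
    calc ∏ p ∈ (z + 1).primesBelow, (1 - f p)⁻¹
        ≤ ∏ p ∈ (z + 1).primesBelow, Real.exp (12 * (p : ℝ)⁻¹) := by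
          refine Finset.prod_le_prod (fun p hp => ?_) fun p hp => ?_
          · have := hf1 p (Nat.prime_of_mem_primesBelow hp)
            exact inv_nonneg.mpr (by linarith)
          · have hpp := Nat.prime_of_mem_primesBelow hp
            have b1 := hf1 p hpp
            have b2 := hf0 p
            have hp0 : (0 : ℝ) < p := by exact_mod_cast hpp.pos
            have b3 : f p ≤ 3 * (p : ℝ)⁻¹ := by
              have c1 : (p : ℝ) ≤ Real.exp w :=
                le_trans (by exact_mod_cast Nat.le_of_lt_succ (Nat.lt_of_mem_primesBelow hp)) hz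
              have c2 : (p : ℝ) ^ (1 / w) ≤ 3 := by
                refine (Real.rpow_le_rpow hp0.le c1 (by positivity)).trans ?_
                rw [← Real.exp_mul, mul_one_div_cancel hw0.ne']
                exact Real.exp_one_lt_three.le
              rw [hf, hσ, neg_sub, Real.rpow_sub hp0, Real.rpow_one, div_eq_mul_inv]
              gcongr
            refine le_trans ?_ (Real.add_one_le_exp _)
            rw [inv_eq_one_div (1 - f p), div_le_iff₀ (by linarith)]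
            nlinarith
      _ = Real.exp (12 * ∑ p ∈ (z + 1).primesBelow, (p : ℝ)⁻¹) := by
          rw [← Real.exp_sum, Finset.mul_sum]
      _ ≤ _ := by
          gcongr
          have b1 : ∑ p ∈ (z + 1).primesBelow, (p : ℝ)⁻¹ ≤ ∑ i ∈ Icc 1 z, (i : ℝ)⁻¹ :=
            Finset.sum_le_sum_of_subset_of_nonneg (fun p hp => Finset.mem_Icc.mpr
              ⟨(Nat.prime_of_mem_primesBelow hp).one_le,
                Nat.le_of_lt_succ (Nat.lt_of_mem_primesBelow hp)⟩) fun _ _ _ => by positivity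
          refine (b1.trans (sum_inv_le z)).trans ?_
          rcases Nat.eq_zero_or_pos z with rfl | h
          · simp [hw0.le]
          · have := (Real.log_le_iff_le_exp (by exact_mod_cast h)).mpr hz
            linarith
  refine le_trans ?_ (mul_le_mul_of_nonneg_left (h1.trans h2) (by positivity))
  rw [Finset.mul_sum, Finset.card_eq_sum_ones, Nat.cast_sum]
  refine Finset.sum_le_sum fun n hn => ?_
  obtain ⟨b1, b2⟩ := Nat.mem_smoothNumbersUpTo.mp hn
  have hn0 : (0 : ℝ) < n := by exact_mod_cast Nat.pos_of_ne_zero (Nat.ne_zero_of_mem_smoothNumbers b2)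
  rw [hf, Real.rpow_neg hn0.le, ← div_eq_mul_inv, Nat.cast_one, one_le_div (by positivity)]
  exact Real.rpow_le_rpow hn0.le (by exact_mod_cast b1) (by linarith)

end Pool.Agent.Lib.MP_d3ed34_co.Dens
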