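import Pool.Agent.Lib.MP_d3ed34_co.Dens.Crit
import Pool.Agent.Lib.MP_d3ed34_co.Dens.Sieve

set_option autoImplicit false

namespace Pool.Agent.Lib.MP_d3ed34_co.Dens

open Finset

theorem count_le : ∃ C : ℝ, 0 < C ∧ ∀ (N z : ℕ) (A : Finset ℕ), 0 < z →
    (∀ u ∈ A, u ≠ 0 ∧ u ≤ N ∧ ∃ p d : ℕ, z < p ∧ p * d ∣ u ∧ p ≤ 16 * d ^ 4 ∧ d ≤ p ^ 2 ∧
      d ^ (p - 1) ≡ 1 [MOD p ^ 2]) → (#A : ℝ) ≤ C * N / (z : ℝ) ^ (1 / 32 : ℝ) := by
  classical
  obtain ⟨C, hC0, hC⟩ := sol_small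
  have hs : Summable fun n : ℕ => ((n : ℝ) ^ (33 / 32 : ℝ))⁻¹ :=
    Real.summable_nat_rpow_inv.mpr (by norm_num)
  set S := ∑' n : ℕ, ((n : ℝ) ^ (33 / 32 : ℝ))⁻¹ with hS
  have hS0 : 0 ≤ S := tsum_nonneg fun _ => by positivity
  refine ⟨C * (S + 1), by positivity, fun N z A hz hA => ?_⟩
  have hex : ∀ p : ℕ, ∃ L, p ≤ 16 * L ^ 4 := fun p =>
    ⟨p, (Nat.le_self_pow (by norm_num) p).trans (Nat.le_mul_of_pos_left _ (by norm_num))⟩
  have h1 : A ⊆ (Ioc z N).biUnion fun p => (sol p (Nat.find (hex p)) (p ^ 2)).biUnion fun d =>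
      (range N.succ).filter fun k => k ≠ 0 ∧ p * d ∣ k := by
    intro u hu
    obtain ⟨a1, a2, p, d, a3, a4, a5, a6, a7⟩ := hA u hu
    refine Finset.mem_biUnion.mpr ⟨p, Finset.mem_Ioc.mpr ⟨a3, ?_⟩, Finset.mem_biUnion.mpr ⟨d,
      Finset.mem_filter.mpr ⟨Finset.mem_Icc.mpr ⟨Nat.find_min' _ a5, a6⟩, a7⟩,
      Finset.mem_filter.mpr ⟨Finset.mem_range.mpr (Nat.lt_succ_of_le a2), a1, a4⟩⟩⟩
    exact (Nat.le_of_dvd (Nat.pos_of_ne_zero a1) ((dvd_mul_right p d).trans a4)).trans a2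
  have h2 : #A ≤ ∑ p ∈ Ioc z N, ∑ d ∈ sol p (Nat.find (hex p)) (p ^ 2), N / (p * d) := by
    refine (Finset.card_le_card h1).trans (Finset.card_biUnion_le.trans
      (Finset.sum_le_sum fun p _ => Finset.card_biUnion_le.trans
        (Finset.sum_le_sum fun d _ => (Nat.card_multiples' N _).le)))
  have hz0 : (0 : ℝ) < z := by exact_mod_cast hz
  have hzp : 0 < (z : ℝ) ^ (1 / 32 : ℝ) := Real.rpow_pos_of_pos hz0 _
  calc (#A : ℝ)
      ≤ ∑ p ∈ Ioc z N, ∑ d ∈ sol p (Nat.find (hex p)) (p ^ 2), ((N / (p * d) : ℕ) : ℝ) := by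
        exact_mod_cast h2
    _ ≤ ∑ p ∈ Ioc z N, C * N / (z : ℝ) ^ (1 / 32 : ℝ) * ((p : ℝ) ^ (33 / 32 : ℝ))⁻¹ := by
        refine Finset.sum_le_sum fun p hp => ?_
        have hzp' := (Finset.mem_Ioc.mp hp).1
        have hp0 : (0 : ℝ) < p := by exact_mod_cast hz.trans hzp'
        have b1 := hC p _ (hz.trans hzp') (Nat.find_spec (hex p))
        have b2 : (z : ℝ) ^ (1 / 32 : ℝ) * (p : ℝ) ^ (33 / 32 : ℝ)
            ≤ p * (p : ℝ) ^ (1 / 16 : ℝ) := by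
          rw [← Real.rpow_one_add' hp0.le (by norm_num),
            show (1 + 1 / 16 : ℝ) = 1 / 32 + 33 / 32 by norm_num, Real.rpow_add hp0]
          gcongr
        calc ∑ d ∈ sol p (Nat.find (hex p)) (p ^ 2), ((N / (p * d) : ℕ) : ℝ)
            ≤ ∑ d ∈ sol p (Nat.find (hex p)) (p ^ 2), (N / p : ℝ) * (d : ℝ)⁻¹ := by
              refine Finset.sum_le_sum fun d _ => Nat.cast_div_le.trans (le_of_eq ?_)
              rw [Nat.cast_mul, ← div_eq_mul_inv, div_div]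
          _ ≤ (N / p : ℝ) * (C / (p : ℝ) ^ (1 / 16 : ℝ)) := by
              rw [← Finset.mul_sum]
              gcongr
          _ = C * N / (p * (p : ℝ) ^ (1 / 16 : ℝ)) := by rw [div_mul_div_comm, mul_comm C]
          _ ≤ C * N / ((z : ℝ) ^ (1 / 32 : ℝ) * (p : ℝ) ^ (33 / 32 : ℝ)) := by gcongr
          _ = _ := by rw [← div_eq_mul_inv, div_div]
    _ ≤ C * N / (z : ℝ) ^ (1 / 32 : ℝ) * (S + 1) := by
        rw [← Finset.mul_sum]
        gcongr
        exact (hs.sum_le_tsum _ fun _ _ => by positivity).trans (by linarith)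
    _ = _ := by ring

theorem sparse (Ex : ℕ → Prop) (h0 : ¬ Ex 0)
    (hE : ∀ u z : ℕ, Ex u → 16 ≤ z → u ∉ Nat.smoothNumbers (z + 1) →
      ∃ p d : ℕ, z < p ∧ p * d ∣ u ∧ p ≤ 16 * d ^ 4 ∧ d ≤ p ^ 2 ∧ d ^ (p - 1) ≡ 1 [MOD p ^ 2]) :
    ∃ c C : ℝ, 0 < c ∧ ∀ N : ℕ,
      ({u | u ≤ N ∧ Ex u}.ncard : ℝ) ≤ C * N * Real.exp (-c * √(Real.log N)) := by
  classical
  obtain ⟨C, hC0, hC⟩ := count_le
  refine ⟨1 / 160, 2 * C + Real.exp 12, by norm_num, fun N => ?_⟩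
  have hset : {u | u ≤ N ∧ Ex u} = ((Icc 1 N).filter Ex : Finset ℕ) := by
    ext u
    simp only [Set.mem_ofPred_eq, Finset.coe_filter, Finset.mem_Icc]
    refine ⟨fun h => ⟨⟨Nat.pos_of_ne_zero ?_, h.1⟩, h.2⟩, fun h => ⟨h.1.2, h.2⟩⟩
    rintro rfl
    exact h0 h.2
  rw [hset, Set.ncard_coe_finset]
  set w := √(Real.log N) / 5 with hw
  rw [show -(1 / 160 : ℝ) * √(Real.log N) = -(w / 32) by rw [hw]; ring]
  have hN0 : (0 : ℝ) ≤ N := Nat.cast_nonneg N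
  rcases le_total w 3 with h3 | h3
  · have b1 : (#((Icc 1 N).filter Ex) : ℝ) ≤ N := by
      have := Finset.card_filter_le (Icc 1 N) Ex
      rw [Nat.card_Icc, Nat.add_sub_cancel] at this
      exact_mod_cast this
    have b2 : 1 ≤ Real.exp 12 * Real.exp (-(w / 32)) := by
      rw [← Real.exp_add]
      exact Real.one_le_exp (by linarith)
    have b3 : 0 ≤ 2 * C * N * Real.exp (-(w / 32)) := by positivity
    nlinarith
  have hL : Real.log N = 25 * w ^ 2 := by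
    rw [hw, div_pow, Real.sq_sqrt (Real.log_natCast_nonneg N)]
    ring
  have hN1 : (0 : ℝ) < N := by
    refine hN0.lt_of_ne fun h => ?_
    rw [← h, Real.log_zero] at hL
    nlinarith
  have he : (17 : ℝ) ≤ Real.exp w := by
    refine le_trans ?_ (Real.exp_le_exp.mpr h3)
    rw [show (3 : ℝ) = (3 : ℕ) * 1 by norm_num, Real.exp_nat_mul]
    refine le_trans (by norm_num) (pow_le_pow_left₀ (by norm_num) Real.exp_one_gt_d9.le 3)
  set z := ⌊Real.exp w⌋₊ with hz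
  have hz1 : (z : ℝ) ≤ Real.exp w := Nat.floor_le (Real.exp_pos w).le
  have hz2 : Real.exp w < z + 1 := Nat.lt_floor_add_one _
  have hz3 : 16 ≤ z := by
    have : (16 : ℝ) < z := by linarith
    exact_mod_cast this.le
  have b1 := rankin (by linarith : 2 ≤ w) N z hz1
  have b2 := hC N z (((Icc 1 N).filter Ex).filter fun u => u ∉ Nat.smoothNumbers (z + 1))
    (by omega) fun u hu => by
      obtain ⟨a1, a2⟩ := Finset.mem_filter.mp hu
      obtain ⟨a3, a4⟩ := Finset.mem_filter.mp a1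
      rw [Finset.mem_Icc] at a3
      exact ⟨by omega, a3.2, hE u z a4 hz3 a2⟩
  have b3 : #((Icc 1 N).filter Ex) ≤ #(Nat.smoothNumbersUpTo N (z + 1))
      + #(((Icc 1 N).filter Ex).filter fun u => u ∉ Nat.smoothNumbers (z + 1)) := by
    rw [← Finset.card_filter_add_card_filter_not (s := (Icc 1 N).filter Ex)
      (fun u => u ∈ Nat.smoothNumbers (z + 1))]
    refine Nat.add_le_add_right (Finset.card_le_card fun u hu => ?_) _
    obtain ⟨a1, a2⟩ := Finset.mem_filter.mp hu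
    exact Nat.mem_smoothNumbersUpTo.mpr ⟨(Finset.mem_Icc.mp (Finset.mem_filter.mp a1).1).2, a2⟩
  have b4 : (N : ℝ) ^ (1 - 1 / w) * Real.exp (12 * (1 + w))
      ≤ Real.exp 12 * N * Real.exp (-(w / 32)) := by
    have hw0 : w ≠ 0 := by linarith
    rw [sub_eq_add_neg, Real.rpow_add hN1, Real.rpow_one, Real.rpow_def_of_pos hN1, hL, mul_assoc,
      ← Real.exp_add, mul_comm (Real.exp 12), mul_assoc (N : ℝ), ← Real.exp_add]
    refine mul_le_mul_of_nonneg_left (Real.exp_le_exp.mpr ?_) hN0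
    have : w ^ 2 * -(1 / w) = -w := by field_simp
    linarith
  have b5 : C * N / (z : ℝ) ^ (1 / 32 : ℝ) ≤ 2 * C * N * Real.exp (-(w / 32)) := by
    have c1 : Real.exp (w / 32) / 2 ≤ (z : ℝ) ^ (1 / 32 : ℝ) := by
      refine le_of_pow_le_pow_left₀ (n := 32) (by norm_num) (by positivity) ?_
      rw [← Real.rpow_natCast ((z : ℝ) ^ (1 / 32 : ℝ)), ← Real.rpow_mul (Nat.cast_nonneg z),
        div_pow, ← Real.exp_nat_mul]
      norm_num
      rw [show 32 * (w / 32) = w by ring]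
      linarith
    calc C * N / (z : ℝ) ^ (1 / 32 : ℝ) ≤ C * N / (Real.exp (w / 32) / 2) := by gcongr
      _ = _ := by rw [Real.exp_neg]; field_simp
  have b6 : (#((Icc 1 N).filter Ex) : ℝ) ≤ #(Nat.smoothNumbersUpTo N (z + 1))
      + #(((Icc 1 N).filter Ex).filter fun u => u ∉ Nat.smoothNumbers (z + 1)) := by
    exact_mod_cast b3
  linarith

end Pool.Agent.Lib.MP_d3ed34_co.Dens
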