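import Pool.Agent.Lib.MP_d3ed34_co.Dens.Alg

set_option autoImplicit false
set_option linter.unusedSectionVars false

namespace Pool.Agent.Lib.MP_d3ed34_co.Dens

open Finset

variable {R : Type*} [CommRing R] [IsDedekindDomain R] [CharZero R]
variable {H : Type*} [CommRing H] [Fintype H] [DecidableEq H]
variable {p : ℕ} [hp : Fact p.Prime]

/-- Restriction of a function to one fibre of `c`. -/
def cut (c : H →+* ZMod p) (f : H → ℤ) (i : ZMod p) : H → ℤ := fun g => if c g = i then f g else 0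

/-- A ring spanned by the values of a character, with an automorphism multiplying these values by
`p`-th roots of unity. -/
structure Gr (ψ : AddChar H R) (χ : AddChar (ZMod p) R) (c : H →+* ZMod p) (σ : R →+* R) :
    Prop where
  prim : χ.IsPrimitive
  sψ : ∀ g, σ (ψ g) = ψ g * χ (c g)
  sχ : ∀ k, σ (χ k) = χ k
  span : ∀ y, y ∈ Submodule.span ℤ (Set.range ψ)

variable {ψ : AddChar H R} {χ : AddChar (ZMod p) R} {c : H →+* ZMod p} {σ : R →+* R}

theorem pow_succ_apply (σ : R →+* R) (j : ℕ) (y : R) : (σ ^ (j + 1)) y = σ ((σ ^ j) y) := by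
  rw [pow_succ', RingHom.mul_def, RingHom.comp_apply]

theorem pow_fix {σ : R →+* R} {s : R} (hs : σ s = s) (j : ℕ) : (σ ^ j) s = s := by
  induction j with
  | zero => simp
  | succ j ih => rw [pow_succ_apply, ih, hs]

theorem Gr.iter (h : Gr ψ χ c σ) (n : ℕ) (g : H) : (σ ^ n) (ψ g) = ψ g * χ (n * c g) := by
  induction n with
  | zero => simp
  | succ n ih =>
    rw [pow_succ_apply, ih, map_mul, h.sψ, h.sχ, mul_assoc, ← AddChar.map_add_eq_mul]
    congr 2
    push_cast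
    ring

theorem Gr.pow_p (h : Gr ψ χ c σ) (y : R) : (σ ^ p) y = y := by
  induction h.span y using Submodule.span_induction with
  | mem x hx =>
    obtain ⟨g, rfl⟩ := hx
    rw [h.iter]
    simp
  | zero => simp
  | add x y _ _ hx hy => rw [map_add, hx, hy]
  | smul a x _ hx => rw [map_zsmul, hx]

theorem chi_congr (χ : AddChar (ZMod p) R) (k : ZMod p) : χ 1 - 1 ∣ χ k - 1 := by
  have := sub_dvd_pow_sub_pow (χ 1) 1 k.val
  rwa [one_pow, chr_pow, one_mul, ZMod.natCast_zmod_val] at this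

theorem Gr.inert (h : Gr ψ χ c σ) (y : R) : χ 1 - 1 ∣ σ y - y := by
  induction h.span y using Submodule.span_induction with
  | mem x hx =>
    obtain ⟨g, rfl⟩ := hx
    rw [h.sψ, ← mul_sub_one]
    exact (chi_congr χ _).mul_left _
  | zero => simp
  | add x y _ _ hx hy =>
    rw [map_add, show σ x + σ y - (x + y) = σ x - x + (σ y - y) by ring]
    exact dvd_add hx hy
  | smul a x _ hx =>
    rw [map_zsmul, ← smul_sub, zsmul_eq_mul]
    exact hx.mul_left _

/-- The unnormalised projection to an eigenspace of `σ`. -/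
def SS (χ : AddChar (ZMod p) R) (σ : R →+* R) (k : ZMod p) (y : R) : R :=
  ∑ j : ZMod p, (σ ^ j.val) y * χ (-(j * k))

theorem Gr.SS_dvd (h : Gr ψ χ c σ) (k : ZMod p) (y : R) : (p : R) ∣ SS χ σ k y := by
  induction h.span y using Submodule.span_induction with
  | mem x hx =>
    obtain ⟨g, rfl⟩ := hx
    have h1 : SS χ σ k (ψ g) = ψ g * ∑ j : ZMod p, χ (j * (c g - k)) := by
      unfold SS
      rw [Finset.mul_sum]
      refine Finset.sum_congr rfl fun j _ => ?_
      rw [h.iter, ZMod.natCast_zmod_val, mul_assoc, ← AddChar.map_add_eq_mul]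
      congr 2
      ring
    rw [h1, orth h.prim, ZMod.card]
    split_ifs
    · exact dvd_mul_left _ _
    · simp
  | zero => simp [SS]
  | add x y _ _ hx hy =>
    have : SS χ σ k (x + y) = SS χ σ k x + SS χ σ k y := by
      unfold SS
      rw [← Finset.sum_add_distrib]
      exact Finset.sum_congr rfl fun j _ => by rw [map_add, add_mul]
    rw [this]
    exact dvd_add hx hy
  | smul a x _ hx =>
    have : SS χ σ k (a • x) = a * SS χ σ k x := by
      unfold SS
      rw [Finset.mul_sum]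
      exact Finset.sum_congr rfl fun j _ => by rw [map_zsmul, zsmul_eq_mul, mul_assoc]
    rw [this]
    exact hx.mul_left _

theorem SS_mul (χ : AddChar (ZMod p) R) (k : ZMod p) (s y : R) (hs : σ s = s) :
    SS χ σ k (s * y) = s * SS χ σ k y := by
  unfold SS
  rw [Finset.mul_sum]
  exact Finset.sum_congr rfl fun j _ => by rw [map_mul, pow_fix hs, mul_assoc]

theorem SS_mem (χ : AddChar (ZMod p) R) (k : ZMod p) (I : Ideal R) (hI : ∀ y ∈ I, σ y ∈ I)
    (y : R) (hy : y ∈ I) : SS χ σ k y ∈ I := by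
  refine I.sum_mem fun j _ => I.mul_mem_right _ ?_
  induction j.val with
  | zero => simpa using hy
  | succ n ih =>
    rw [pow_succ_apply]
    exact hI _ ih

theorem Gr.iter_FZ (h : Gr ψ χ c σ) (f : H → ℤ) (r : H) (j : ZMod p) :
    (σ ^ j.val) (FZ ψ f r) = FT χ (fun i => FZ ψ (cut c f i) r) (j * c r) := by
  unfold FZ FT cut
  simp_rw [Finset.sum_mul]
  rw [Finset.sum_comm, map_sum]
  refine Finset.sum_congr rfl fun g _ => ?_
  rw [Finset.sum_eq_single (c g)]
  · rw [map_mul, map_intCast, h.iter, ZMod.natCast_zmod_val, if_pos rfl, map_mul c, mul_assoc,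
      mul_assoc]
  · intro i _ hi
    rw [if_neg hi.symm]
    simp
  · simp

theorem Gr.SS_pos (h : Gr ψ χ c σ) (f : H → ℤ) (i : ZMod p) :
    SS χ σ i (FZ ψ f 1) = p * FZ ψ (cut c f i) 1 := by
  unfold SS
  simp_rw [h.iter_FZ, map_one, mul_one]
  rw [FT_inv h.prim, ZMod.card]

theorem Gr.SS_neg (h : Gr ψ χ c σ) (f : H → ℤ) (i : ZMod p) :
    SS χ σ (-i) (FZ ψ f (-1)) = p * FZ ψ (cut c f i) (-1) := by
  unfold SS
  simp_rw [h.iter_FZ, map_neg, map_one]
  have := FT_inv h.prim (fun i => FZ ψ (cut c f i) (-1)) i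
  rw [ZMod.card] at this
  rw [← this, ← Equiv.sum_comp (Equiv.neg (ZMod p))]
  refine Finset.sum_congr rfl fun j _ => ?_
  simp

theorem Gr.energy (h : Gr ψ χ c σ) (f : H → ℤ) {n : ℕ} (hx : FZ ψ f 1 * FZ ψ f (-1) = n) :
    ∑ i, FZ ψ (cut c f i) 1 * FZ ψ (cut c f i) (-1) = n := by
  have h1 := parseval h.prim (fun i => FZ ψ (cut c f i) 1) (fun i => FZ ψ (cut c f i) (-1))
  have h2 : ∀ j : ZMod p, FT χ (fun i => FZ ψ (cut c f i) 1) j
      * FT χ (fun i => FZ ψ (cut c f i) (-1)) (-j) = n := by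
    intro j
    have a1 := h.iter_FZ f 1 j
    have a2 := h.iter_FZ f (-1) j
    rw [map_one, mul_one] at a1
    rw [map_neg, map_one, mul_neg, mul_one] at a2
    rw [← a1, ← a2, ← map_mul, hx, map_natCast]
  simp only [h2, Finset.sum_const, Finset.card_univ, nsmul_eq_mul] at h1
  exact (mul_left_cancel₀ card_ne_zero' h1).symm

theorem Gr.cut_dvd (h : Gr ψ χ c σ) (hp2 : p ≠ 2) (f : H → ℤ) {a m : ℕ} (hm : ¬ p ∣ m)
    (hfix : ∀ q : ℕ, q.Prime → q ∣ m → ∀ P : Ideal R, P.IsPrime → (q : R) ∈ P → ∀ y ∈ P, σ y ∈ P)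
    (hx : ((p ^ a * m : ℕ) : R) ∣ FZ ψ f 1 * FZ ψ f (-1)) (i : ZMod p) :
    ((p ^ a * m : ℕ) : R) ∣ (χ 1 - 1) ^ 2 * (FZ ψ (cut c f i) 1 * FZ ψ (cut c f i) (-1)) := by
  set π := χ 1 - 1 with hπ
  set M : R := ((p ^ a * m : ℕ) : R) with hM
  have hm0 : m ≠ 0 := by
    rintro rfl
    exact hm (dvd_zero p)
  have hpπ : (p : R) ∣ π ^ p := by
    have := dvd_pow_sub_one (R := R) hp2 (w := χ 1) (k := 1) (by rw [chr_pow]; simp)
    rwa [pow_one] at this
  have hπ0 : π ≠ 0 := by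
    rw [hπ, sub_ne_zero, Ne, chr_eq_one h.prim]
    exact one_ne_zero
  have hπP : ∀ P : Ideal R, P.IsPrime → (p : R) ∈ P → π ∈ P := fun P hP h1 =>
    hP.mem_of_pow_mem p (P.mem_of_dvd hpπ h1)
  have hstab : ∀ P : Ideal R, P.IsPrime → M ∈ P → ∀ y ∈ P, σ y ∈ P := by
    intro P hP hMP
    obtain ⟨q, hq, hd, hqP⟩ := exists_prime_mem P hP _
      (mul_ne_zero (pow_ne_zero a hp.out.ne_zero) hm0) hMP
    rcases (Nat.Prime.dvd_mul hq).mp hd with hd | hd
    · have : q = p := (Nat.prime_dvd_prime_iff_eq hq hp.out).mp (hq.dvd_of_dvd_pow hd)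
      subst this
      intro y hy
      have := P.add_mem (P.mem_of_dvd (h.inert y) (hπP P hP hqP)) hy
      simpa using this
    · exact hfix q hq hd P hP hqP
  have key : ∀ (x X : R) (k : ZMod p), SS χ σ k x = p * X → π * X ∈ Ideal.span {x, M} := by
    intro x X k hX
    have hMI : M ∈ Ideal.span {x, M} := Ideal.subset_span (by simp)
    refine step σ hp.out.pos (Nat.cast_ne_zero.mpr hp.out.ne_zero) h.pow_p hπ0
      (by rw [hπ, map_sub, h.sχ, map_one σ]) h.inert _ (SS χ σ k) (SS_mul χ k) (h.SS_dvd k)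
      (SS_mem χ k _ (inv_ideal σ M hstab _ hMI)) (fun P hP hpP => ⟨hπP P hP.isPrime hpP, m, p * a,
        fun hmP => ?_, ?_⟩) (Ideal.subset_span (by simp)) hX
    · have hco : IsCoprime (p : R) (m : R) :=
        Nat.Coprime.cast ((Nat.Prime.coprime_iff_not_dvd hp.out).mpr hm)
      obtain ⟨u, v, huv⟩ := hco
      exact (Ideal.ne_top_iff_one P).mp hP.ne_top
        (huv ▸ P.add_mem (P.mul_mem_left u hpP) (P.mul_mem_left v hmP))
    · refine Ideal.mem_of_dvd _ ?_ hMI
      rw [hM, Nat.cast_mul, Nat.cast_pow, mul_comm, pow_mul]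
      exact mul_dvd_mul_left _ (pow_dvd_pow_of_dvd hpπ a)
  obtain ⟨α, β, h1⟩ := Ideal.mem_span_pair.mp (key _ _ _ (h.SS_pos f i))
  obtain ⟨α', β', h2⟩ := Ideal.mem_span_pair.mp (key _ _ _ (h.SS_neg f i))
  obtain ⟨w, hw⟩ := hx
  refine ⟨α * α' * w + α * FZ ψ f 1 * β' + β * (α' * FZ ψ f (-1) + β' * M), ?_⟩
  linear_combination (-(π * FZ ψ (cut c f i) (-1))) * h1 - (α * FZ ψ f 1 + β * M) * h2
    + α * α' * hw

end Pool.Agent.Lib.MP_d3ed34_co.Dens
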